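import Mathlib
set_option autoImplicit false

/-! Oscillatory integrals over unions of intervals, and unions of intervals. -/

namespace Run7.h617.Tame

open MeasureTheory Set Filter Topology Complex

/-- `A` is a union of at most `N` intervals. -/
def IsUnion (N : ℕ) (A : Set ℝ) : Prop :=
  ∃ I : Fin N → Set ℝ, (∀ i, (I i).OrdConnected) ∧ A = ⋃ i, I i

theorem ordc_union {A B : Set ℝ} (hA : A.OrdConnected) (hB : B.OrdConnected)
    (h : (A ∩ B).Nonempty) : (A ∪ B).OrdConnected := by
  obtain ⟨x, hx1, hx2⟩ := h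
  exact isPreconnected_iff_ordConnected.1 (IsPreconnected.union x hx1 hx2
    (isPreconnected_iff_ordConnected.2 hA) (isPreconnected_iff_ordConnected.2 hB))

theorem ex_last {N : ℕ} (p : Fin (N + 1) → Prop) :
    (∃ i, p i) ↔ (∃ i : Fin N, p i.castSucc) ∨ p (Fin.last N) := by
  constructor
  · rintro ⟨i, hi⟩
    revert hi
    refine Fin.lastCases ?_ (fun i => ?_) i
    · exact fun h => Or.inr h
    · exact fun h => Or.inl ⟨i, h⟩
  · rintro (⟨i, hi⟩ | h)
    · exact ⟨_, hi⟩
    · exact ⟨_, h⟩

/-- a union of `N` intervals is a disjoint union of `N` intervals -/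
theorem disj (N : ℕ) : ∀ A : Set ℝ, IsUnion N A → ∃ I : Fin N → Set ℝ,
    (∀ i, (I i).OrdConnected) ∧ Pairwise (fun i j => Disjoint (I i) (I j)) ∧ A = ⋃ i, I i := by
  classical
  induction N with
  | zero =>
    rintro A ⟨I, h1, h2⟩
    exact ⟨I, h1, fun i => i.elim0, h2⟩
  | succ N ih =>
    rintro A ⟨I, h1, h2⟩
    obtain ⟨J, hJ1, hJ2, hJ3⟩ := ih (⋃ i : Fin N, I i.castSucc) ⟨fun i => I i.castSucc,
      fun i => h1 _, rfl⟩
    have hA : A = (⋃ i : Fin N, J i) ∪ I (Fin.last N) := by
      rw [h2, ← hJ3]
      ext x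
      simp only [mem_iUnion, mem_union, ex_last]
    set L := I (Fin.last N) with hL
    have hLo : L.OrdConnected := h1 _
    set S : Fin N → Prop := fun i => (L ∩ J i).Nonempty with hS
    set K : Set ℝ := L ∪ ⋃ i : {i : Fin N // S i}, J i.1 with hK
    have hKo : K.OrdConnected := by
      rw [← isPreconnected_iff_ordConnected]
      rcases L.eq_empty_or_nonempty with h0 | ⟨x, hx⟩
      · have : K = ∅ := by
          rw [hK, h0]
          ext y
          simp only [mem_union, mem_empty_iff_false, mem_iUnion, false_or, iff_false, not_exists]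
          rintro ⟨i, hi⟩
          rw [hS] at hi
          simp [h0] at hi
        rw [this]
        exact isPreconnected_empty
      · refine isPreconnected_of_forall x ?_
        intro y hy
        rcases hy with hy | hy
        · exact ⟨L, subset_union_left, hx, hy, isPreconnected_iff_ordConnected.2 hLo⟩
        · obtain ⟨i, hi⟩ := mem_iUnion.1 hy
          refine ⟨L ∪ J i.1, union_subset_union_right _ (subset_iUnion (fun i : {i // S i} => J i.1) i),
            Or.inl hx, Or.inr hi, ?_⟩
          exact isPreconnected_iff_ordConnected.2 (ordc_union hLo (hJ1 _) i.2)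
    refine ⟨Fin.snoc (fun i => if S i then ∅ else J i) K, ?_, ?_, ?_⟩
    · intro i
      refine Fin.lastCases ?_ (fun i => ?_) i
      · simpa using hKo
      · simp only [Fin.snoc_castSucc]
        split_ifs
        · exact ordConnected_empty
        · exact hJ1 i
    · have hd : ∀ i : Fin N, Disjoint (if S i then (∅ : Set ℝ) else J i) K := by
        intro i
        split_ifs with hi
        · exact empty_disjoint _
        · rw [Set.disjoint_left]
          intro x hx hxK
          rcases hxK with h | h
          · exact hi ⟨x, h, hx⟩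
          · obtain ⟨j, hj⟩ := mem_iUnion.1 h
            have hij : i ≠ j.1 := by
              rintro rfl
              exact hi j.2
            exact Set.disjoint_left.1 (hJ2 hij) hx hj
      intro i j
      refine Fin.lastCases ?_ (fun i => ?_) i <;> refine Fin.lastCases ?_ (fun j => ?_) j
      · intro h
        exact absurd rfl h
      · intro _
        simp only [Fin.snoc_castSucc, Fin.snoc_last]
        exact (hd j).symm
      · intro _
        simp only [Fin.snoc_castSucc, Fin.snoc_last]
        exact hd i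
      · intro h
        simp only [Fin.snoc_castSucc]
        have hij : i ≠ j := fun h' => h (by rw [h'])
        split_ifs
        · exact empty_disjoint _
        · exact empty_disjoint _
        · exact disjoint_empty _
        · exact hJ2 hij
    · rw [hA]
      ext x
      simp only [mem_union, mem_iUnion, ex_last, Fin.snoc_castSucc, Fin.snoc_last, hK]
      constructor
      · rintro (⟨i, hi⟩ | h)
        · by_cases hSi : S i
          · exact Or.inr (Or.inr ⟨⟨i, hSi⟩, hi⟩)
          · exact Or.inl ⟨i, by rw [if_neg hSi]; exact hi⟩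
        · exact Or.inr (Or.inl h)
      · rintro (⟨i, hi⟩ | h | ⟨i, hi⟩)
        · split_ifs at hi with hSi
          · exact absurd hi (notMem_empty _)
          · exact Or.inl ⟨i, hi⟩
        · exact Or.inr h
        · exact Or.inl ⟨i.1, hi⟩

/-- the integrand -/
noncomputable def osc (t : ℝ) (r : ℝ) : ℂ := (r : ℂ) * cexp ((t * r ^ 2 : ℝ) * I)

theorem osc_cont (t : ℝ) : Continuous (osc t) := by unfold osc; fun_prop

theorem osc_int (t : ℝ) (ht : t ≠ 0) (a b : ℝ) :
    ‖∫ r in a..b, osc t r‖ ≤ 1 / |t| := by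
  have htc : (t : ℂ) ≠ 0 := by exact_mod_cast ht
  have hder : ∀ r : ℝ, HasDerivAt (fun r : ℝ => cexp ((t * r ^ 2 : ℝ) * I) / (2 * t * I))
      (osc t r) r := by
    intro r
    have h1 : HasDerivAt (fun r : ℝ => ((t * r ^ 2 : ℝ) : ℂ) * I) (((t * (2 * r) : ℝ) : ℂ) * I) r := by
      have h0 : HasDerivAt (fun r : ℝ => t * r ^ 2) (t * (2 * r)) r := by
        have := (hasDerivAt_pow 2 r).const_mul t
        simpa using this
      exact h0.ofReal_comp.mul_const I
    have h2 := (h1.cexp).div_const (2 * t * I)
    refine h2.congr_deriv ?_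
    unfold osc
    push_cast
    field_simp
  have := intervalIntegral.integral_eq_sub_of_hasDerivAt (a := a) (b := b)
    (fun r _ => hder r) ((osc_cont t).intervalIntegrable _ _)
  rw [this, ← sub_div, norm_div]
  have h3 : ‖(2 * t * I : ℂ)‖ = 2 * |t| := by
    simp
  rw [h3]
  have h4 : ‖cexp ((t * b ^ 2 : ℝ) * I) - cexp ((t * a ^ 2 : ℝ) * I)‖ ≤ 2 := by
    refine (norm_sub_le _ _).trans ?_
    rw [Complex.norm_exp_ofReal_mul_I, Complex.norm_exp_ofReal_mul_I]
    norm_num
  have htp : 0 < |t| := abs_pos.2 ht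
  rw [div_le_div_iff₀ (by positivity) htp]
  nlinarith

theorem osc_bdd (t : ℝ) (ht : t ≠ 0) (J : Set ℝ) (hJ : J.OrdConnected) (hb : BddBelow J)
    (ha : BddAbove J) : ‖∫ r in J, osc t r‖ ≤ 1 / |t| := by
  rcases J.eq_empty_or_nonempty with rfl | hne
  · simp
  have hc : IsConnected J := ⟨hne, isPreconnected_iff_ordConnected.2 hJ⟩
  have h1 := hc.Ioo_csInf_csSup_subset hb ha
  have h2 := subset_Icc_csInf_csSup hb ha
  have h3 : J =ᵐ[volume] Ioc (sInf J) (sSup J) := by
    refine Filter.EventuallyLE.antisymm ?_ ?_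
    · refine (h2.eventuallyLE).trans Ioc_ae_eq_Icc.symm.le
    · exact (Ioo_ae_eq_Ioc.symm.le).trans h1.eventuallyLE
  rw [setIntegral_congr_set h3, ← intervalIntegral.integral_of_le]
  · exact osc_int t ht _ _
  · exact Real.sInf_le_sSup _ hb ha

theorem osc_ordc (t : ℝ) (ht : t ≠ 0) (J : Set ℝ) (hJ : J.OrdConnected) (hb : BddBelow J) :
    ‖∫ r in J, osc t r‖ ≤ 1 / |t| := by
  by_cases hi : IntegrableOn (osc t) J
  · have hJm : MeasurableSet J := hJ.measurableSet
    have hmono : Monotone fun n : ℕ => J ∩ Iic (n : ℝ) := by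
      intro m n hmn
      refine inter_subset_inter_right _ (Iic_subset_Iic.2 ?_)
      exact_mod_cast hmn
    have hun : (⋃ n : ℕ, J ∩ Iic (n : ℝ)) = J := by
      rw [← inter_iUnion]
      refine inter_eq_left.2 fun x _ => ?_
      obtain ⟨n, hn⟩ := exists_nat_ge x
      exact mem_iUnion.2 ⟨n, hn⟩
    have h := tendsto_setIntegral_of_monotone (f := osc t) (s := fun n : ℕ => J ∩ Iic (n : ℝ))
      (fun n => hJm.inter measurableSet_Iic) hmono (by rw [hun]; exact hi)
    rw [hun] at h
    refine le_of_tendsto h.norm (Eventually.of_forall fun n => ?_)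
    refine osc_bdd t ht _ (hJ.inter ordConnected_Iic) (hb.mono inter_subset_left) ?_
    exact bddAbove_Iic.mono inter_subset_right
  · rw [integral_undef hi, norm_zero]
    positivity

/-- **The one dimensional bound.** -/
theorem osc_union (N : ℕ) (A : Set ℝ) (hA : IsUnion N A) (t : ℝ) (ht : t ≠ 0) :
    ‖∫ r in A ∩ Ioi 0, osc t r‖ ≤ N / |t| := by
  obtain ⟨I, h1, h2, h3⟩ := disj N A hA
  have hm : ∀ i, MeasurableSet (I i ∩ Ioi (0 : ℝ)) := fun i => (h1 i).measurableSet.inter measurableSet_Ioi
  have hA' : A ∩ Ioi 0 = ⋃ i, I i ∩ Ioi (0 : ℝ) := by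
    rw [h3, iUnion_inter]
  by_cases hi : IntegrableOn (osc t) (A ∩ Ioi 0)
  · rw [hA'] at hi ⊢
    rw [integral_iUnion_fintype (fun i => hm i) ?_ (fun i => hi.mono_set (subset_iUnion (fun i => I i ∩ Ioi (0 : ℝ)) i))]
    · refine (norm_sum_le _ _).trans ?_
      calc ∑ i : Fin N, ‖∫ r in I i ∩ Ioi 0, osc t r‖ ≤ ∑ i : Fin N, 1 / |t| := by
            refine Finset.sum_le_sum fun i _ => osc_ordc t ht _ ((h1 i).inter ordConnected_Ioi) ?_
            exact bddBelow_Ioi.mono inter_subset_right
        _ = N / |t| := by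
            rw [Finset.sum_const, Finset.card_univ, Fintype.card_fin, nsmul_eq_mul]
            ring
    · intro i j hij
      exact (h2 hij).mono inter_subset_left inter_subset_left
  · rw [integral_undef hi, norm_zero]
    positivity

end Run7.h617.Tame
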