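import Mathlib
import Pool.Agent.Run7.h617.Tame.One
set_option autoImplicit false

/-! Examples: polynomials and convex functions on convex sets. -/

namespace Run7.h617.Tame

open Set Complex Polynomial

/-- positivity sets of polynomials -/
theorem poly_union (D : ℕ) (p : ℝ[X]) (hp : p.natDegree ≤ D) (J : Set ℝ) (hJ : J.OrdConnected) :
    IsUnion (D + 1) {r | r ∈ J ∧ 0 < p.eval r} := by
  classical
  set R : Finset ℝ := p.roots.toFinset with hR
  by_cases hp0 : p = 0
  · refine ⟨fun _ => ∅, fun _ => ordConnected_empty, ?_⟩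
    rw [hp0]
    ext r
    simp
  have hmem : ∀ r, r ∈ R ↔ p.eval r = 0 := by
    intro r
    rw [hR, Multiset.mem_toFinset, mem_roots hp0, IsRoot.def]
  have hcard : R.card ≤ D := (Multiset.toFinset_card_le _).trans ((card_roots' p).trans hp)
  refine ⟨fun j => {r | r ∈ J ∧ 0 < p.eval r ∧ (R.filter (· < r)).card = j}, fun j => ?_, ?_⟩
  · refine ⟨?_⟩
    rintro a ⟨ha1, ha2, ha3⟩ b ⟨hb1, hb2, hb3⟩ c ⟨hac, hcb⟩
    have hmono : ∀ x y : ℝ, x ≤ y → R.filter (· < x) ⊆ R.filter (· < y) := by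
      intro x y hxy z hz
      rw [Finset.mem_filter] at hz ⊢
      exact ⟨hz.1, hz.2.trans_le hxy⟩
    have hab : R.filter (· < a) = R.filter (· < b) :=
      Finset.eq_of_subset_of_card_le (hmono a b (hac.trans hcb)) (by rw [ha3, hb3])
    have hac' : R.filter (· < a) = R.filter (· < c) :=
      Finset.Subset.antisymm (hmono a c hac) (by rw [hab]; exact hmono c b hcb)
    -- no root between `a` and `b`
    have hno : ∀ x ∈ Icc a b, p.eval x ≠ 0 := by
      intro x hx hx0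
      rcases eq_or_lt_of_le hx.2 with h | h
      · rw [h] at hx0
        exact absurd hx0 hb2.ne'
      · have : x ∈ R.filter (· < b) := Finset.mem_filter.2 ⟨(hmem x).2 hx0, h⟩
        rw [← hab, Finset.mem_filter] at this
        exact absurd this.2 (not_lt.2 hx.1)
    refine ⟨hJ.out ha1 hb1 ⟨hac, hcb⟩, ?_, by rw [← hac', ha3]⟩
    by_contra hneg
    have hcneg : p.eval c ≤ 0 := not_lt.1 hneg
    obtain ⟨x, hx1, hx2⟩ := intermediate_value_Icc' hac (p.continuous.continuousOn)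
      (show (0 : ℝ) ∈ Icc (p.eval c) (p.eval a) from ⟨hcneg, ha2.le⟩)
    exact hno x ⟨hx1.1, hx1.2.trans hcb⟩ hx2
  · ext r
    simp only [mem_ofPred_eq, mem_iUnion]
    constructor
    · rintro ⟨h1, h2⟩
      have : (R.filter (· < r)).card < D + 1 :=
        lt_of_le_of_lt ((Finset.card_filter_le _ _).trans hcard) (Nat.lt_succ_self D)
      exact ⟨⟨_, this⟩, h1, h2, rfl⟩
    · rintro ⟨j, h1, h2, -⟩
      exact ⟨h1, h2⟩

/-- the convex case -/
theorem convex_union (J : Set ℝ) (hJ : J.OrdConnected) (g : ℝ → ℝ) (s : ℝ)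
    (hg : {r | r ∈ J ∧ g r ≤ s}.OrdConnected) :
    IsUnion 2 {r | r ∈ J ∧ s < g r} := by
  set S := {r | r ∈ J ∧ g r ≤ s} with hS
  refine ⟨![{r | r ∈ J ∧ s < g r ∧ ∀ t ∈ S, r < t}, {r | r ∈ J ∧ s < g r ∧ ∃ t ∈ S, t < r}], ?_, ?_⟩
  · intro i
    fin_cases i
    · refine ⟨?_⟩
      rintro a ⟨ha1, ha2, ha3⟩ b ⟨hb1, hb2, hb3⟩ c ⟨hac, hcb⟩
      have hcJ : c ∈ J := hJ.out ha1 hb1 ⟨hac, hcb⟩
      refine ⟨hcJ, ?_, fun t ht => hcb.trans_lt (hb3 t ht)⟩
      by_contra h
      exact absurd (hb3 c ⟨hcJ, not_lt.1 h⟩) (not_lt.2 hcb)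
    · refine ⟨?_⟩
      rintro a ⟨ha1, ha2, t, ht, hta⟩ b ⟨hb1, hb2, hb3⟩ c ⟨hac, hcb⟩
      have hcJ : c ∈ J := hJ.out ha1 hb1 ⟨hac, hcb⟩
      refine ⟨hcJ, ?_, t, ht, hta.trans_le hac⟩
      by_contra h
      exact absurd (hg.out ht ⟨hcJ, not_lt.1 h⟩ ⟨hta.le, hac⟩).2 (not_le.2 ha2)
  · ext r
    simp only [mem_ofPred_eq, mem_iUnion]
    constructor
    · rintro ⟨h1, h2⟩
      by_cases h : ∀ t ∈ S, r < t
      · exact ⟨0, h1, h2, h⟩
      · push Not at h
        obtain ⟨t, ht, htr⟩ := h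
        refine ⟨1, h1, h2, t, ht, lt_of_le_of_ne htr ?_⟩
        rintro rfl
        exact absurd ht.2 (not_le.2 h2)
    · rintro ⟨i, hi⟩
      fin_cases i
      · exact ⟨hi.1, hi.2.1⟩
      · exact ⟨hi.1, hi.2.1⟩

theorem union_mono {M N : ℕ} (h : M ≤ N) {A : Set ℝ} (hA : IsUnion M A) : IsUnion N A := by
  classical
  obtain ⟨I, h1, h2⟩ := hA
  refine ⟨fun i => if hi : (i : ℕ) < M then I ⟨i, hi⟩ else ∅, fun i => ?_, ?_⟩
  · simp only
    split_ifs
    · exact h1 _
    · exact ordConnected_empty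
  · rw [h2]
    ext r
    simp only [mem_iUnion]
    constructor
    · rintro ⟨i, hi⟩
      refine ⟨⟨i, i.2.trans_le h⟩, ?_⟩
      rw [dif_pos i.2]
      exact hi
    · rintro ⟨i, hi⟩
      split_ifs at hi with h3
      · exact ⟨_, hi⟩
      · exact absurd hi (notMem_empty _)

theorem union_one {A : Set ℝ} (hA : A.OrdConnected) : IsUnion 1 A :=
  ⟨fun _ => A, fun _ => hA, by ext r; simp⟩

/-- restriction of a complex polynomial in two variables to a line -/
theorem line_poly (D : ℕ) (P : MvPolynomial (Fin 2) ℂ) (hP : P.totalDegree ≤ D) (c : ℂ) (s : ℝ)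
    (x v : Fin 2 → ℝ) : ∃ p : ℝ[X], p.natDegree ≤ D ∧
      ∀ r : ℝ, p.eval r = (c * MvPolynomial.eval (fun i => ((x i + r * v i : ℝ) : ℂ)) P).re - s := by
  set Q : ℂ[X] := MvPolynomial.aeval (fun i => Polynomial.C (x i : ℂ) + Polynomial.C (v i : ℂ) * X) P with hQ
  have hQd : Q.natDegree ≤ D := by
    have h := MvPolynomial.aeval_natDegree_le (n := 1) P hP
      (fun i => Polynomial.C (x i : ℂ) + Polynomial.C (v i : ℂ) * X) (fun i => by
        refine (natDegree_add_le _ _).trans (max_le ?_ ?_)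
        · simp
        · refine (natDegree_C_mul_le _ _).trans natDegree_X_le)
    simpa using h
  refine ⟨(∑ k ∈ Finset.range (D + 1), Polynomial.C (c * Q.coeff k).re * X ^ k) - Polynomial.C s, ?_, ?_⟩
  · refine (natDegree_sub_le _ _).trans (max_le ?_ (by simp))
    refine natDegree_sum_le_of_forall_le _ _ fun k hk => ?_
    refine (natDegree_C_mul_X_pow_le _ _).trans ?_
    exact Nat.lt_succ_iff.1 (Finset.mem_range.1 hk)
  · intro r
    have h1 : MvPolynomial.eval (fun i => ((x i + r * v i : ℝ) : ℂ)) P = Q.eval (r : ℂ) := by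
      rw [hQ]
      clear hQd hQ hP Q
      induction P using MvPolynomial.induction_on with
      | C a => simp
      | add p q hp hq => rw [map_add, hp, hq, map_add, eval_add]
      | mul_X p i hp =>
        rw [map_mul, hp, map_mul, eval_mul, MvPolynomial.eval_X, MvPolynomial.aeval_X]
        congr 1
        simp
        ring
    rw [h1, eval_sub, eval_C, eval_finsetSum]
    congr 1
    rw [Q.eval_eq_sum_range' (Nat.lt_succ_of_le hQd), Finset.mul_sum, Complex.re_sum]
    refine Finset.sum_congr rfl fun k _ => ?_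
    rw [eval_mul, eval_C, eval_pow, eval_X, ← mul_assoc]
    rw [← ofReal_pow, Complex.re_mul_ofReal]

end Run7.h617.Tame
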