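import Mathlib
set_option autoImplicit false

/-! One dimensional inequalities. -/

namespace Run7.h617.Tame

open MeasureTheory Set Filter Topology
open scoped ENNReal

theorem lint_low (c r : ℝ) (hc : 0 < c) (hr : -1 < r) :
    ∫⁻ s in Ioc 0 c, ENNReal.ofReal (s ^ r) = ENNReal.ofReal (c ^ (r + 1) / (r + 1)) := by
  have h1 : IntegrableOn (fun s : ℝ => s ^ r) (Ioc 0 c) :=
    (intervalIntegrable_iff_integrableOn_Ioc_of_le hc.le).1 (intervalIntegral.intervalIntegrable_rpow' hr)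
  rw [← ofReal_integral_eq_lintegral_ofReal h1]
  · rw [← intervalIntegral.integral_of_le hc.le, integral_rpow (Or.inl hr), Real.zero_rpow (by linarith),
      sub_zero]
  · refine (ae_restrict_iff' measurableSet_Ioc).2 (Eventually.of_forall fun s hs => ?_)
    exact Real.rpow_nonneg hs.1.le _

theorem lint_high (c r : ℝ) (hc : 0 < c) (hr : r < -1) :
    ∫⁻ s in Ioi c, ENNReal.ofReal (s ^ r) = ENNReal.ofReal (c ^ (r + 1) / (-(r + 1))) := by
  rw [← ofReal_integral_eq_lintegral_ofReal (integrableOn_Ioi_rpow_of_lt hr hc)]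
  · rw [integral_Ioi_rpow_of_lt hr hc]
    congr 1
    rw [div_neg, neg_div]
  · refine (ae_restrict_iff' measurableSet_Ioi).2 (Eventually.of_forall fun s hs => ?_)
    exact Real.rpow_nonneg (hc.trans hs).le _

theorem lint_even (F : ℝ → ℝ≥0∞) (hF : ∀ t, F (-t) = F t) :
    ∫⁻ t, F t = 2 * ∫⁻ t in Ioi 0, F t := by
  have h1 : ∫⁻ t, F t = (∫⁻ t in Ioi 0, F t) + ∫⁻ t in (Ioi 0)ᶜ, F t :=
    (lintegral_add_compl F measurableSet_Ioi).symm
  have h2 : ∫⁻ t in (Ioi 0)ᶜ, F t = ∫⁻ t in Ioi 0, F t := by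
    rw [compl_Ioi, setLIntegral_congr Iio_ae_eq_Iic.symm]
    have h := (Measure.measurePreserving_neg (volume : Measure ℝ)).setLIntegral_comp_preimage_emb
      (MeasurableEquiv.neg ℝ).measurableEmbedding F (Iio 0)
    rw [← h]
    have : (Neg.neg ⁻¹' (Iio (0 : ℝ))) = Ioi 0 := by
      ext t; simp
    rw [this]
    simp_rw [hF]
  rw [h1, h2, two_mul]

/-- the integral in the vertical variable -/
theorem tint (N m p b : ℝ) (hN : 0 < N) (hm : 0 < m) (hb : -1 < b) (hbp : b < p - 1) :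
    ∫⁻ t : ℝ, ENNReal.ofReal ((min (N / |t|) m) ^ p * |t| ^ b) ≤
      ENNReal.ofReal (2 * (N ^ (1 + b) * m ^ (p - 1 - b) * (1 / (1 + b) + 1 / (p - 1 - b)))) := by
  have hp : 0 < p := by linarith
  rw [lint_even _ (fun t => by rw [abs_neg])]
  set δ := N / m with hδ
  have hδ0 : 0 < δ := by positivity
  have h1 : Ioi (0 : ℝ) = Ioc 0 δ ∪ Ioi δ := (Ioc_union_Ioi_eq_Ioi hδ0.le).symm
  have h2 : ∫⁻ t in Ioc 0 δ, ENNReal.ofReal ((min (N / |t|) m) ^ p * |t| ^ b) ≤
      ENNReal.ofReal (m ^ p) * ENNReal.ofReal (δ ^ (b + 1) / (b + 1)) := by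
    rw [← lint_low δ b hδ0 hb, ← lintegral_const_mul' _ _ ENNReal.ofReal_ne_top]
    refine setLIntegral_mono' measurableSet_Ioc fun t ht => ?_
    rw [← ENNReal.ofReal_mul (by positivity)]
    refine ENNReal.ofReal_le_ofReal ?_
    rw [abs_of_pos ht.1]
    refine mul_le_mul_of_nonneg_right ?_ (Real.rpow_nonneg ht.1.le _)
    exact Real.rpow_le_rpow (le_min (div_nonneg hN.le ht.1.le) hm.le) (min_le_right _ _) hp.le
  have h3 : ∫⁻ t in Ioi δ, ENNReal.ofReal ((min (N / |t|) m) ^ p * |t| ^ b) ≤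
      ENNReal.ofReal (N ^ p) * ENNReal.ofReal (δ ^ (b - p + 1) / (-(b - p + 1))) := by
    rw [← lint_high δ (b - p) hδ0 (by linarith), ← lintegral_const_mul' _ _ ENNReal.ofReal_ne_top]
    refine setLIntegral_mono' measurableSet_Ioi fun t ht => ?_
    have ht0 : 0 < t := hδ0.trans ht
    rw [← ENNReal.ofReal_mul (by positivity)]
    refine ENNReal.ofReal_le_ofReal ?_
    rw [abs_of_pos ht0, Real.rpow_sub ht0]
    calc (min (N / t) m) ^ p * t ^ b ≤ (N / t) ^ p * t ^ b := by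
          refine mul_le_mul_of_nonneg_right ?_ (Real.rpow_nonneg ht0.le _)
          exact Real.rpow_le_rpow (le_min (div_nonneg hN.le ht0.le) hm.le) (min_le_left _ _) hp.le
      _ = N ^ p * (t ^ b / t ^ p) := by
          rw [Real.div_rpow hN.le ht0.le]
          ring
  have h4 : ∫⁻ t in Ioi 0, ENNReal.ofReal ((min (N / |t|) m) ^ p * |t| ^ b) ≤
      ENNReal.ofReal (N ^ (1 + b) * m ^ (p - 1 - b) * (1 / (1 + b) + 1 / (p - 1 - b))) := by
    rw [h1]
    refine (lintegral_union_le _ _ _).trans ((add_le_add h2 h3).trans (le_of_eq ?_))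
    rw [← ENNReal.ofReal_mul (by positivity), ← ENNReal.ofReal_mul (by positivity),
      ← ENNReal.ofReal_add (by
        have : 0 < b + 1 := by linarith
        positivity) (by
        have : 0 < -(b - p + 1) := by linarith
        positivity)]
    congr 1
    have e1 : m ^ p * (δ ^ (b + 1) / (b + 1)) = N ^ (1 + b) * m ^ (p - 1 - b) * (1 / (1 + b)) := by
      rw [hδ, Real.div_rpow hN.le hm.le, show p - 1 - b = p - (b + 1) by ring, Real.rpow_sub hm,
        show 1 + b = b + 1 by ring]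
      ring
    have e2 : N ^ p * (δ ^ (b - p + 1) / (-(b - p + 1))) =
        N ^ (1 + b) * m ^ (p - 1 - b) * (1 / (p - 1 - b)) := by
      rw [hδ, Real.div_rpow hN.le hm.le, show p - 1 - b = -(b - p + 1) by ring, Real.rpow_neg hm.le,
        show b - p + 1 = (1 + b) - p by ring, Real.rpow_sub hN]
      have : N ^ p ≠ 0 := (Real.rpow_pos_of_pos hN _).ne'
      field_simp
    rw [e1, e2]
    ring
  calc 2 * ∫⁻ t in Ioi 0, ENNReal.ofReal ((min (N / |t|) m) ^ p * |t| ^ b) ≤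
      2 * ENNReal.ofReal (N ^ (1 + b) * m ^ (p - 1 - b) * (1 / (1 + b) + 1 / (p - 1 - b))) := by
        gcongr
    _ = _ := by
        rw [ENNReal.ofReal_mul (by norm_num : (0 : ℝ) ≤ 2), ENNReal.ofReal_ofNat]

/-- the weight integral -/
theorem wint (c γ : ℝ) (hc : 0 < c) (hγ : 0 < γ) :
    ∫⁻ s in Ioi (0 : ℝ), ENNReal.ofReal (min (s ^ γ / c) (c / s ^ γ) / s) ≤
      ENNReal.ofReal (2 / γ) := by
  set κ := c ^ (1 / γ) with hκ
  have hκ0 : 0 < κ := Real.rpow_pos_of_pos hc _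
  have hκc : κ ^ γ = c := by
    rw [hκ, ← Real.rpow_mul hc.le, one_div_mul_cancel hγ.ne', Real.rpow_one]
  have h1 : Ioi (0 : ℝ) = Ioc 0 κ ∪ Ioi κ := (Ioc_union_Ioi_eq_Ioi hκ0.le).symm
  have h2 : ∫⁻ s in Ioc 0 κ, ENNReal.ofReal (min (s ^ γ / c) (c / s ^ γ) / s) ≤
      ENNReal.ofReal (1 / γ) := by
    have e : ENNReal.ofReal (1 / c) * ENNReal.ofReal (κ ^ (γ - 1 + 1) / (γ - 1 + 1)) =
        ENNReal.ofReal (1 / γ) := by
      rw [← ENNReal.ofReal_mul (by positivity), sub_add_cancel, hκc]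
      congr 1
      field_simp
    rw [← e, ← lint_low κ (γ - 1) hκ0 (by linarith), ← lintegral_const_mul' _ _ ENNReal.ofReal_ne_top]
    refine setLIntegral_mono' measurableSet_Ioc fun s hs => ?_
    have hs0 : 0 < s := hs.1
    rw [← ENNReal.ofReal_mul (by positivity)]
    refine ENNReal.ofReal_le_ofReal ?_
    rw [Real.rpow_sub_one hs0.ne']
    calc min (s ^ γ / c) (c / s ^ γ) / s ≤ (s ^ γ / c) / s :=
          div_le_div_of_nonneg_right (min_le_left _ _) hs0.le
      _ = 1 / c * (s ^ γ / s) := by ring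
  have h3 : ∫⁻ s in Ioi κ, ENNReal.ofReal (min (s ^ γ / c) (c / s ^ γ) / s) ≤
      ENNReal.ofReal (1 / γ) := by
    have e : ENNReal.ofReal c * ENNReal.ofReal (κ ^ (-γ - 1 + 1) / (-(-γ - 1 + 1))) =
        ENNReal.ofReal (1 / γ) := by
      rw [← ENNReal.ofReal_mul hc.le, sub_add_cancel, neg_neg, Real.rpow_neg hκ0.le, hκc]
      congr 1
      field_simp
    rw [← e, ← lint_high κ (-γ - 1) hκ0 (by linarith), ← lintegral_const_mul' _ _ ENNReal.ofReal_ne_top]
    refine setLIntegral_mono' measurableSet_Ioi fun s hs => ?_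
    have hs0 : 0 < s := hκ0.trans hs
    rw [← ENNReal.ofReal_mul hc.le]
    refine ENNReal.ofReal_le_ofReal ?_
    rw [Real.rpow_sub_one hs0.ne', Real.rpow_neg hs0.le]
    calc min (s ^ γ / c) (c / s ^ γ) / s ≤ (c / s ^ γ) / s :=
          div_le_div_of_nonneg_right (min_le_right _ _) hs0.le
      _ = c * ((s ^ γ)⁻¹ / s) := by ring
  rw [h1]
  refine (lintegral_union_le _ _ _).trans ((add_le_add h2 h3).trans (le_of_eq ?_))
  rw [← ENNReal.ofReal_add (by positivity) (by positivity)]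
  congr 1
  ring

/-- **Hölder's inequality with weights.** -/
theorem hold (q γ c : ℝ) (hq : 1 < q) (hγ : 0 < γ) (hc : 0 < c) (g : ℝ → ℝ≥0∞) (hg : Measurable g) :
    (∫⁻ s in Ioi (0 : ℝ), g s) ^ q ≤ ENNReal.ofReal ((2 * (q - 1) / γ) ^ (q - 1)) *
      ∫⁻ s in Ioi (0 : ℝ), ENNReal.ofReal (s ^ (q - 1) * (s ^ γ / c + c / s ^ γ)) * g s ^ q := by
  have hq1 : 0 < q - 1 := by linarith
  have hq0 : 0 < q := by linarith
  set V : ℝ → ℝ := fun s => s ^ (q - 1) * (s ^ γ / c + c / s ^ γ) with hV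
  have hVp : ∀ s : ℝ, 0 < s → 0 < V s := fun s hs => by
    simp only [hV]
    positivity
  have hVm : Measurable V := by
    simp only [hV]
    fun_prop
  have hconj : (q / (q - 1)).HolderConjugate q := by
    have := (Real.HolderConjugate.conjExponent hq)
    exact this.symm
  have h1 : ∫⁻ s in Ioi (0 : ℝ), g s = ∫⁻ s in Ioi (0 : ℝ),
      ((fun s => ENNReal.ofReal (V s ^ (-(1 / q)))) *
        fun s => ENNReal.ofReal (V s ^ (1 / q)) * g s) s := by
    refine setLIntegral_congr_fun measurableSet_Ioi fun s hs => ?_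
    have hs0 : 0 < V s := hVp s hs
    simp only [Pi.mul_apply]
    rw [← mul_assoc, ← ENNReal.ofReal_mul (by positivity), ← Real.rpow_add hs0]
    simp
  have h2 := ENNReal.lintegral_mul_le_Lp_mul_Lq (volume.restrict (Ioi (0 : ℝ))) hconj
    (f := fun s => ENNReal.ofReal (V s ^ (-(1 / q))))
    (g := fun s => ENNReal.ofReal (V s ^ (1 / q)) * g s)
    (by fun_prop) (by fun_prop)
  have h3 : ∫⁻ s in Ioi (0 : ℝ), ENNReal.ofReal (V s ^ (-(1 / q))) ^ (q / (q - 1)) ≤
      ENNReal.ofReal (2 * (q - 1) / γ) := by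
    have h4 := wint (c ^ (1 / (q - 1))) (γ / (q - 1)) (by positivity) (by positivity)
    have e : 2 / (γ / (q - 1)) = 2 * (q - 1) / γ := by field_simp
    rw [e] at h4
    refine le_trans (setLIntegral_mono' measurableSet_Ioi fun s hs => ?_) h4
    have hs0 : 0 < V s := hVp s hs
    have hs1 : (0 : ℝ) < s := hs
    rw [ENNReal.ofReal_rpow_of_nonneg (by positivity) (by positivity)]
    refine ENNReal.ofReal_le_ofReal ?_
    rw [← Real.rpow_mul hs0.le, show -(1 / q) * (q / (q - 1)) = -(1 / (q - 1)) by field_simp,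
      Real.rpow_neg hs0.le]
    have key : ∀ w : ℝ, 0 < w → s ^ (q - 1) * w ≤ V s → (V s ^ (1 / (q - 1)))⁻¹ ≤
        (w ^ (1 / (q - 1)))⁻¹ / s := by
      intro w hw hle
      have h5 : (s ^ (q - 1) * w) ^ (1 / (q - 1)) ≤ V s ^ (1 / (q - 1)) :=
        Real.rpow_le_rpow (by positivity) hle (by positivity)
      rw [Real.mul_rpow (by positivity) hw.le, ← Real.rpow_mul hs1.le, mul_one_div_cancel hq1.ne',
        Real.rpow_one] at h5
      calc (V s ^ (1 / (q - 1)))⁻¹ ≤ (s * w ^ (1 / (q - 1)))⁻¹ :=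
            inv_anti₀ (by positivity) h5
        _ = _ := by
            rw [mul_inv]
            ring
    rw [← min_div_div_right hs1.le]
    refine le_min ?_ ?_
    · refine (key (c / s ^ γ) (by positivity) ?_).trans (le_of_eq ?_)
      · simp only [hV]
        refine mul_le_mul_of_nonneg_left ?_ (by positivity)
        have : 0 < s ^ γ / c := by positivity
        linarith
      · congr 1
        rw [Real.div_rpow hc.le (by positivity), ← Real.rpow_mul hs1.le, inv_div, mul_one_div]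
    · refine (key (s ^ γ / c) (by positivity) ?_).trans (le_of_eq ?_)
      · simp only [hV]
        refine mul_le_mul_of_nonneg_left ?_ (by positivity)
        have : 0 < c / s ^ γ := by positivity
        linarith
      · congr 1
        rw [Real.div_rpow (by positivity) hc.le, ← Real.rpow_mul hs1.le, inv_div, mul_one_div]
  have h5 : ∫⁻ s in Ioi (0 : ℝ), (ENNReal.ofReal (V s ^ (1 / q)) * g s) ^ q =
      ∫⁻ s in Ioi (0 : ℝ), ENNReal.ofReal (V s) * g s ^ q := by
    refine setLIntegral_congr_fun measurableSet_Ioi fun s hs => ?_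
    have hs0 : 0 < V s := hVp s hs
    rw [ENNReal.mul_rpow_of_nonneg _ _ hq0.le, ENNReal.ofReal_rpow_of_nonneg (by positivity) hq0.le,
      ← Real.rpow_mul hs0.le, one_div_mul_cancel hq0.ne', Real.rpow_one]
  rw [h1]
  calc (∫⁻ s in Ioi (0 : ℝ), ((fun s => ENNReal.ofReal (V s ^ (-(1 / q)))) *
        fun s => ENNReal.ofReal (V s ^ (1 / q)) * g s) s) ^ q
      ≤ ((∫⁻ s in Ioi (0 : ℝ), ENNReal.ofReal (V s ^ (-(1 / q))) ^ (q / (q - 1))) ^ (1 / (q / (q - 1))) *
        (∫⁻ s in Ioi (0 : ℝ), (ENNReal.ofReal (V s ^ (1 / q)) * g s) ^ q) ^ (1 / q)) ^ q :=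
        ENNReal.rpow_le_rpow h2 hq0.le
    _ = (∫⁻ s in Ioi (0 : ℝ), ENNReal.ofReal (V s ^ (-(1 / q))) ^ (q / (q - 1))) ^ (q - 1) *
        ∫⁻ s in Ioi (0 : ℝ), ENNReal.ofReal (V s) * g s ^ q := by
        rw [ENNReal.mul_rpow_of_nonneg _ _ hq0.le, ← ENNReal.rpow_mul, ← ENNReal.rpow_mul,
          one_div_mul_cancel hq0.ne', ENNReal.rpow_one, h5]
        congr 2
        field_simp
    _ ≤ ENNReal.ofReal (2 * (q - 1) / γ) ^ (q - 1) *
        ∫⁻ s in Ioi (0 : ℝ), ENNReal.ofReal (V s) * g s ^ q := by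
        gcongr
    _ = _ := by
        rw [ENNReal.ofReal_rpow_of_nonneg (by positivity) hq1.le]

end Run7.h617.Tame
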