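import Mathlib
import Pool.Agent.R412.RT.C
import Pool.Agent.Run7.h617.Tame.One
set_option autoImplicit false

/-! The pointwise bound for the extension of an indicator function. -/

namespace Run7.h617.Tame

open MeasureTheory Set Filter Topology Complex
open Pool.Agent.R412.RT (E ee ee_norm ee_cont ee_meas ee_add Ex Phi Phi_cast Phi_last inner_eq)
open scoped ENNReal RealInnerProductSpace ComplexConjugate

/-- the plane as a product -/
noncomputable def Tp (z : ℝ × ℝ) : E 2 := !₂[z.1, z.2]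

theorem Tp_eq : Tp = (MeasurableEquiv.toLp 2 (Fin 2 → ℝ)) ∘ (MeasurableEquiv.finTwoArrow (α := ℝ)).symm := by
  ext z i
  fin_cases i <;> simp [Tp]

theorem Tp_mp : MeasurePreserving Tp volume volume := by
  rw [Tp_eq]
  exact (PiLp.volume_preserving_toLp (Fin 2)).comp (volume_preserving_finTwoArrow ℝ).symm

theorem Tp_emb : MeasurableEmbedding Tp := by
  rw [Tp_eq]
  exact (MeasurableEquiv.measurableEmbedding _).comp (MeasurableEquiv.measurableEmbedding _)

theorem Tp_integral (G : E 2 → ℂ) : ∫ z : ℝ × ℝ, G (Tp z) = ∫ y, G y :=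
  Tp_mp.integral_comp Tp_emb G

/-- unit vectors -/
noncomputable def uv (θ : ℝ) : E 2 := !₂[Real.cos θ, Real.sin θ]

theorem Tp_polar (q : ℝ × ℝ) : Tp (polarCoord.symm q) = q.1 • uv q.2 := by
  ext i
  fin_cases i <;> simp [Tp, uv, polarCoord_symm_apply]

theorem uv_norm (θ : ℝ) : ‖uv θ‖ = 1 := by
  rw [EuclideanSpace.norm_eq]
  simp [uv, Fin.sum_univ_two]

theorem norm_int_polar (G : E 2 → ℂ) (C : ℝ)
    (hG : ∀ θ : ℝ, ‖∫ r in Ioi (0 : ℝ), (r : ℂ) * G (r • uv θ)‖ ≤ C) :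
    ‖∫ y, G y‖ ≤ C * (2 * Real.pi) := by
  have hC : 0 ≤ C := (norm_nonneg _).trans (hG 0)
  rw [← Tp_integral, ← integral_comp_polarCoord_symm]
  have h1 : polarCoord.target = Ioi (0 : ℝ) ×ˢ Ioo (-Real.pi) Real.pi := rfl
  rw [h1]
  by_cases hi : IntegrableOn (fun q : ℝ × ℝ => q.1 • G (Tp (polarCoord.symm q)))
      (Ioi (0 : ℝ) ×ˢ Ioo (-Real.pi) Real.pi)
  · have hi' : Integrable (fun q : ℝ × ℝ => q.1 • G (Tp (polarCoord.symm q)))
        ((volume.restrict (Ioi (0 : ℝ))).prod (volume.restrict (Ioo (-Real.pi) Real.pi))) := by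
      rw [Measure.prod_restrict, ← Measure.volume_eq_prod]
      exact hi
    rw [Measure.volume_eq_prod, ← Measure.prod_restrict, integral_prod_symm _ hi']
    refine (norm_setIntegral_le_of_norm_le_const (C := C) (by simp) ?_).trans (le_of_eq ?_)
    · intro θ _
      have h2 : (∫ r in Ioi (0 : ℝ), (r, θ).1 • G (Tp (polarCoord.symm (r, θ)))) =
          ∫ r in Ioi (0 : ℝ), (r : ℂ) * G (r • uv θ) := by
        refine integral_congr_ae (Eventually.of_forall fun r => ?_)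
        simp only
        rw [Tp_polar, Complex.real_smul]
      rw [h2]
      exact hG θ
    · rw [measureReal_def, Real.volume_Ioo, ENNReal.toReal_ofReal (by linarith [Real.pi_pos])]
      ring
  · rw [integral_undef hi, norm_zero]
    have := Real.pi_pos
    positivity

/-- the vertex -/
noncomputable def vtx (ξ : E 3) : E 2 := !₂[-(ξ 0) / (2 * ξ 2), -(ξ 1) / (2 * ξ 2)]

theorem phase_eq (ξ : E 3) (hξ : ξ 2 ≠ 0) (x : E 2) :
    ⟪Phi x, ξ⟫ = ξ 2 * ‖x - vtx ξ‖ ^ 2 + -(ξ 2 * ‖vtx ξ‖ ^ 2) := by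
  rw [inner_eq, EuclideanSpace.norm_sq_eq, EuclideanSpace.norm_sq_eq, Fin.sum_univ_three,
    Fin.sum_univ_two, Fin.sum_univ_two]
  have h0 : Phi x (0 : Fin 3) = x 0 := Phi_cast x 0
  have h1 : Phi x (1 : Fin 3) = x 1 := Phi_cast x 1
  have h2 : Phi x (2 : Fin 3) = ∑ i, x i ^ 2 := Phi_last x
  rw [h0, h1, h2, Fin.sum_univ_two]
  simp only [PiLp.sub_apply, Real.norm_eq_abs, sq_abs, vtx]
  simp
  field_simp
  ring

/-- **The pointwise bound.** -/
theorem set_bound (N : ℕ) (A : Set (E 2))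
    (hN : ∀ x v : E 2, IsUnion N {r : ℝ | x + r • v ∈ A}) (ξ : E 3) (hξ : ξ 2 ≠ 0) :
    ‖Ex (A.indicator 1) ξ‖ ≤ N / |ξ 2| := by
  have hpi := Real.pi_pos
  have e1 : Ex (A.indicator 1) ξ = ee (-(ξ 2 * ‖vtx ξ‖ ^ 2)) *
      ∫ y, ee (ξ 2 * ‖y‖ ^ 2) * A.indicator 1 (vtx ξ + y) := by
    unfold Ex
    rw [← integral_const_mul, ← integral_add_left_eq_self _ (vtx ξ)]
    refine integral_congr_ae (Eventually.of_forall fun y => ?_)
    simp only
    rw [phase_eq ξ hξ, ee_add, add_sub_cancel_left]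
    ring
  rw [e1, norm_mul, ee_norm, one_mul]
  have h := norm_int_polar (fun y => ee (ξ 2 * ‖y‖ ^ 2) * A.indicator 1 (vtx ξ + y))
    (N / (2 * Real.pi * |ξ 2|)) ?_
  · refine h.trans (le_of_eq ?_)
    have : |ξ 2| ≠ 0 := abs_ne_zero.2 hξ
    field_simp
  · intro θ
    have ht : 2 * Real.pi * ξ 2 ≠ 0 := by positivity
    have h2 := osc_union N _ (hN (vtx ξ) (uv θ)) (2 * Real.pi * ξ 2) ht
    have h3 : ∫ r in Ioi (0 : ℝ), (r : ℂ) * (ee (ξ 2 * ‖r • uv θ‖ ^ 2) *
        A.indicator 1 (vtx ξ + r • uv θ)) =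
        ∫ r in {r : ℝ | vtx ξ + r • uv θ ∈ A} ∩ Ioi 0, osc (2 * Real.pi * ξ 2) r := by
      have hm : MeasurableSet {r : ℝ | vtx ξ + r • uv θ ∈ A} := by
        obtain ⟨I, hI1, hI2⟩ := hN (vtx ξ) (uv θ)
        rw [hI2]
        exact MeasurableSet.iUnion fun i => (hI1 i).measurableSet
      rw [inter_comm, ← setIntegral_indicator hm]
      refine integral_congr_ae (Eventually.of_forall fun r => ?_)
      simp only
      by_cases hr : vtx ξ + r • uv θ ∈ A
      · rw [indicator_of_mem hr, indicator_of_mem (show r ∈ {r : ℝ | vtx ξ + r • uv θ ∈ A} from hr),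
          norm_smul, uv_norm, mul_one, Pi.one_apply, mul_one]
        unfold osc ee
        rw [Real.norm_eq_abs, sq_abs]
        congr 2
        push_cast
        ring
      · rw [indicator_of_notMem hr, indicator_of_notMem (show r ∉ {r : ℝ | vtx ξ + r • uv θ ∈ A} from hr),
          mul_zero, mul_zero]
    rw [h3]
    refine h2.trans (le_of_eq ?_)
    rw [abs_mul, abs_of_pos (by positivity : (0 : ℝ) < 2 * Real.pi)]

end Run7.h617.Tame
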