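import Mathlib
import Pool.Agent.Run7.h617.Tame.Two
set_option autoImplicit false

/-! The weighted `L²` bound and the layer cake formula. -/

namespace Run7.h617.Tame

open MeasureTheory Set Filter Topology Complex
open Pool.Agent.R412.RT (E ee ee_norm ee_cont ee_meas ee_add Ex Ey Ex_eq Ex_meas cov slab Jn_eq Jn Vs Phi
  Phi_cast Phi_last inner_eq inner_repr_symm)
open scoped ENNReal RealInnerProductSpace ComplexConjugate

theorem l2w (w : ℝ → ℝ≥0∞) (hw : Measurable w) (g : E 2 → ℂ) (hg : Integrable g) :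
    ∫⁻ ξ : E 3, w (ξ 2) * ‖Ex g ξ‖ₑ ^ 2 ≤ (∫⁻ a, w a) * ∫⁻ x, ‖g x‖ₑ ^ 2 := by
  set e : OrthonormalBasis (Fin 3) ℝ (E 3) := EuclideanSpace.basisFun (Fin 3) ℝ with he
  have hJ : ∀ x : E 2, Jn e (Fin.last 2) x = 1 := by
    intro x
    rw [Jn_eq, Fin.sum_univ_two]
    simp [he]
  have h := slab e (Fin.last 2) 1 w hw g hg (fun x hx => by
    exfalso
    apply hx
    show 0 < 1 * Jn e (Fin.last 2) x
    rw [hJ]
    norm_num)
  have h2 : ∫⁻ ξ : E 3, w (ξ 2) * ‖Ex g ξ‖ₑ ^ 2 =
      ∫⁻ y : Fin 3 → ℝ, w (y (Fin.last 2)) * ‖Ey e g y‖ₑ ^ 2 := by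
    rw [cov e (fun ξ : E 3 => w (ξ 2) * ‖Ex g ξ‖ₑ ^ 2)]
    · refine lintegral_congr fun y => ?_
      simp only
      rw [Ex_eq]
      congr 2
    · exact (hw.comp (by fun_prop)).mul ((Ex_meas g hg.1).enorm.pow_const 2)
  rw [h2]
  refine h.trans (le_of_eq ?_)
  congr 1
  refine lintegral_congr fun x => ?_
  rw [hJ, abs_one, ENNReal.ofReal_one, div_one]

theorem Phi_cont : Continuous (Phi : E 2 → E 3) := by
  unfold Phi
  refine (PiLp.continuous_toLp 2 _).comp (continuous_pi fun i => ?_)
  refine Fin.lastCases ?_ (fun j => ?_) i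
  · simp only [Fin.snoc_last]
    fun_prop
  · simp only [Fin.snoc_castSucc]
    fun_prop

/-- the indicator of the level set -/
noncomputable def lev (f : E 2 → ℝ) (s : ℝ) : E 2 → ℂ := {x | s < f x}.indicator 1

theorem lev_joint (f : E 2 → ℝ) (hf : Measurable f) :
    Measurable (fun p : ℝ × E 2 => lev f p.1 p.2) := by
  have : (fun p : ℝ × E 2 => lev f p.1 p.2) = {p : ℝ × E 2 | p.1 < f p.2}.indicator 1 := by
    ext p
    unfold lev
    by_cases h : p.1 < f p.2
    · rw [indicator_of_mem (show p.2 ∈ {x | p.1 < f x} from h),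
        indicator_of_mem (show p ∈ {p : ℝ × E 2 | p.1 < f p.2} from h)]
      rfl
    · rw [indicator_of_notMem (show p.2 ∉ {x | p.1 < f x} from h),
        indicator_of_notMem (show p ∉ {p : ℝ × E 2 | p.1 < f p.2} from h)]
  rw [this]
  exact measurable_one.indicator (measurableSet_lt measurable_fst (hf.comp measurable_snd))

theorem lev_enorm (f : E 2 → ℝ) (s : ℝ) (x : E 2) :
    ‖lev f s x‖ₑ = {x | s < f x}.indicator (1 : E 2 → ℝ≥0∞) x := by
  unfold lev
  by_cases h : s < f x
  · rw [indicator_of_mem (show x ∈ {x | s < f x} from h), indicator_of_mem (show x ∈ {x | s < f x} from h)]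
    simp
  · rw [indicator_of_notMem (show x ∉ {x | s < f x} from h),
      indicator_of_notMem (show x ∉ {x | s < f x} from h)]
    simp

theorem lev_lint (f : E 2 → ℝ) (hf : Measurable f) (s : ℝ) :
    ∫⁻ x, ‖lev f s x‖ₑ = volume {x | s < f x} := by
  simp_rw [lev_enorm]
  rw [lintegral_indicator_one (measurableSet_lt measurable_const hf)]

theorem lev_lint2 (f : E 2 → ℝ) (hf : Measurable f) (s : ℝ) :
    ∫⁻ x, ‖lev f s x‖ₑ ^ 2 = volume {x | s < f x} := by
  rw [← lev_lint f hf s]
  refine lintegral_congr fun x => ?_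
  rw [lev_enorm]
  by_cases h : s < f x
  · rw [indicator_of_mem (show x ∈ {x | s < f x} from h)]
    simp
  · rw [indicator_of_notMem (show x ∉ {x | s < f x} from h)]
    simp

theorem lev_meas (f : E 2 → ℝ) (hf : Measurable f) (s : ℝ) : Measurable (lev f s) :=
  (lev_joint f hf).comp (measurable_const.prodMk measurable_id)

theorem lev_integrable (f : E 2 → ℝ) (hf : Measurable f) (s : ℝ)
    (hs : volume {x | s < f x} ≠ ∞) : Integrable (lev f s) := by
  refine ⟨(lev_meas f hf s).aestronglyMeasurable, ?_⟩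
  rw [hasFiniteIntegral_iff_enorm, lev_lint f hf]
  exact hs.lt_top

theorem Ex_lev_joint (f : E 2 → ℝ) (hf : Measurable f) :
    Measurable (fun p : ℝ × E 3 => Ex (lev f p.1) p.2) := by
  unfold Ex
  have : StronglyMeasurable (Function.uncurry fun (p : ℝ × E 3) (x : E 2) =>
      ee ⟪Phi x, p.2⟫ * lev f p.1 x) := by
    refine StronglyMeasurable.mul ?_ ?_
    · refine (ee_meas.comp ?_).stronglyMeasurable
      refine Measurable.inner ?_ (measurable_snd.comp measurable_fst)
      exact Phi_cont.measurable.comp measurable_snd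
    · exact ((lev_joint f hf).comp ((measurable_fst.comp measurable_fst).prodMk
        measurable_snd)).stronglyMeasurable
  exact this.integral_prod_right.measurable

theorem lev_int_s (a : ℝ) :
    ∫⁻ s in Ioi (0 : ℝ), (if s < a then (1 : ℝ≥0∞) else 0) = ENNReal.ofReal a := by
  have : (fun s : ℝ => if s < a then (1 : ℝ≥0∞) else 0) = (Iio a).indicator 1 := by
    ext s
    simp [indicator_apply]
  rw [this, lintegral_indicator_one measurableSet_Iio, Measure.restrict_apply measurableSet_Iio,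
    inter_comm, Ioi_inter_Iio, Real.volume_Ioo, sub_zero]

/-- **Layer cake.** -/
theorem layer (f : E 2 → ℝ) (hf : Measurable f) (h0 : ∀ x, 0 ≤ f x) (hi : Integrable f) (ξ : E 3) :
    ‖Ex (fun x => (f x : ℂ)) ξ‖ₑ ≤ ∫⁻ s in Ioi (0 : ℝ), ‖Ex (lev f s) ξ‖ₑ := by
  have e1 : ∀ x, (f x : ℂ) = ∫ s in Ioi (0 : ℝ), lev f s x := by
    intro x
    have : (fun s : ℝ => lev f s x) = (Iio (f x)).indicator 1 := by
      ext s
      unfold lev
      by_cases h : s < f x
      · rw [indicator_of_mem (show x ∈ {x | s < f x} from h), indicator_of_mem (show s ∈ Iio (f x) from h)]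
        rfl
      · rw [indicator_of_notMem (show x ∉ {x | s < f x} from h),
          indicator_of_notMem (show s ∉ Iio (f x) from h)]
    rw [this, setIntegral_indicator measurableSet_Iio, Ioi_inter_Iio]
    simp [h0 x]
  have hint : Integrable (Function.uncurry fun (x : E 2) (s : ℝ) => ee ⟪Phi x, ξ⟫ * lev f s x)
      (volume.prod (volume.restrict (Ioi (0 : ℝ)))) := by
    have hm : AEStronglyMeasurable (Function.uncurry fun (x : E 2) (s : ℝ) => ee ⟪Phi x, ξ⟫ * lev f s x)
      (volume.prod (volume.restrict (Ioi (0 : ℝ)))) := by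
      refine Measurable.aestronglyMeasurable ?_
      refine Measurable.mul ?_ ?_
      · exact ee_meas.comp ((Phi_cont.measurable.comp measurable_fst).inner
          measurable_const)
      · exact (lev_joint f hf).comp (measurable_snd.prodMk measurable_fst)
    refine ⟨hm, ?_⟩
    rw [hasFiniteIntegral_iff_enorm, lintegral_prod _ hm.enorm]
    have : ∀ x : E 2, ∫⁻ s in Ioi (0 : ℝ), ‖Function.uncurry (fun (x : E 2) (s : ℝ) =>
        ee ⟪Phi x, ξ⟫ * lev f s x) (x, s)‖ₑ = ENNReal.ofReal (f x) := by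
      intro x
      rw [← lev_int_s (f x)]
      refine lintegral_congr fun s => ?_
      simp only [Function.uncurry]
      rw [enorm_mul, ← ofReal_norm (ee _), ee_norm, ENNReal.ofReal_one, one_mul, lev_enorm]
      rfl
    simp_rw [this]
    have h2 := hi.2
    rw [hasFiniteIntegral_iff_ofReal (Eventually.of_forall h0)] at h2
    exact h2
  have e2 : Ex (fun x => (f x : ℂ)) ξ = ∫ s in Ioi (0 : ℝ), Ex (lev f s) ξ := by
    unfold Ex
    rw [← integral_integral_swap hint]
    refine integral_congr_ae (Eventually.of_forall fun x => ?_)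
    simp only
    rw [e1, integral_const_mul]
  rw [e2]
  exact enorm_integral_le_lintegral_enorm _

end Run7.h617.Tame
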