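import Mathlib
import Pool.Agent.Run7.h617.Tame.Three
import Pool.Agent.Run7.h617.Tame.Four
set_option autoImplicit false

/-! The main inequality for nonnegative functions. -/

namespace Run7.h617.Tame

open MeasureTheory Set Filter Topology Complex
open Pool.Agent.R412.RT (E ee ee_norm Ex Ex_meas)
open scoped ENNReal RealInnerProductSpace ComplexConjugate

/-- exponent on the scaling line -/
noncomputable def sg (q : ℝ) : ℝ := q / (q - 2)

noncomputable def bt (q : ℝ) : ℝ := min (q - 3) 1 / 2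

theorem sg_pos (q : ℝ) (hq : 3 < q) : 0 < sg q := div_pos (by linarith) (by linarith)

theorem sg_eq (q : ℝ) (hq : 3 < q) : sg q * (q - 3) = q - sg q := by
  have : q - 2 ≠ 0 := by linarith
  unfold sg
  field_simp
  ring

theorem bt_pos (q : ℝ) (hq : 3 < q) : 0 < bt q := by
  unfold bt
  have : 0 < min (q - 3) 1 := lt_min (by linarith) one_pos
  linarith

theorem bt_lt (q : ℝ) (hq : 3 < q) : bt q < q - 3 := by
  unfold bt
  have : min (q - 3) 1 ≤ q - 3 := min_le_left _ _
  linarith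

theorem bt_one (q : ℝ) : bt q < 1 := by
  unfold bt
  have : min (q - 3) 1 ≤ 1 := min_le_right _ _
  linarith

/-- the sum of the two constants -/
noncomputable def cc (q : ℝ) : ℝ :=
  (1 / (1 + -bt q) + 1 / (q - 2 - 1 - -bt q)) + (1 / (1 + bt q) + 1 / (q - 2 - 1 - bt q))

/-- the weight -/
noncomputable def VV (q T N s t : ℝ) : ℝ :=
  s ^ (q - 1) * (s ^ (bt q * sg q) / (T * |t| / N) ^ bt q + (T * |t| / N) ^ bt q / s ^ (bt q * sg q))

theorem VV_nonneg (q T N s t : ℝ) (hT : 0 < T) (hN : 0 < N) (hs : 0 < s) : 0 ≤ VV q T N s t := by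
  unfold VV
  positivity

theorem real1 (q T N s m : ℝ) (hq : 3 < q) (hT : 0 < T) (hN : 0 < N) (hs : 0 < s) (hm : 0 < m)
    (hmT : s ^ sg q * m ≤ T) :
    s ^ (q - 1) * s ^ (bt q * sg q) / (T / N) ^ bt q * (N ^ (1 + -bt q) * m ^ (q - 2 - 1 - -bt q)) ≤
      N * T ^ (q - 3) * s ^ (sg q - 1) := by
  have hb := bt_pos q hq
  have hsg := sg_eq q hq
  have h1 : m ≤ T / s ^ sg q := by
    rw [le_div_iff₀ (by positivity)]
    linarith
  have h2 : m ^ (q - 2 - 1 - -bt q) ≤ (T / s ^ sg q) ^ (q - 2 - 1 - -bt q) :=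
    Real.rpow_le_rpow hm.le h1 (by linarith)
  have h3 : N ^ (1 + -bt q) = N / N ^ bt q := by
    rw [Real.rpow_add hN, Real.rpow_one, Real.rpow_neg hN.le]
    rfl
  calc s ^ (q - 1) * s ^ (bt q * sg q) / (T / N) ^ bt q *
        (N ^ (1 + -bt q) * m ^ (q - 2 - 1 - -bt q))
      ≤ s ^ (q - 1) * s ^ (bt q * sg q) / (T / N) ^ bt q *
        (N ^ (1 + -bt q) * (T / s ^ sg q) ^ (q - 2 - 1 - -bt q)) := by
        gcongr
    _ = N * T ^ (q - 3) * s ^ (sg q - 1) := by
        rw [h3, Real.div_rpow hT.le hN.le, Real.div_rpow hT.le (by positivity),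
          ← Real.rpow_mul hs.le]
        have e1 : T ^ (q - 2 - 1 - -bt q) = T ^ (q - 3) * T ^ bt q := by
          rw [← Real.rpow_add hT]
          congr 1
          ring
        have e2 : s ^ (q - 1) * s ^ (bt q * sg q) =
            s ^ (sg q - 1) * s ^ (sg q * (q - 2 - 1 - -bt q)) := by
          rw [← Real.rpow_add hs, ← Real.rpow_add hs]
          congr 1
          nlinarith
        rw [e1, e2]
        have p1 : T ^ bt q ≠ 0 := by positivity
        have p2 : N ^ bt q ≠ 0 := by positivity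
        have p3 : s ^ (sg q * (q - 2 - 1 - -bt q)) ≠ 0 := by positivity
        field_simp

theorem real2 (q T N s m : ℝ) (hq : 3 < q) (hT : 0 < T) (hN : 0 < N) (hs : 0 < s) (hm : 0 < m)
    (hmT : s ^ sg q * m ≤ T) :
    s ^ (q - 1) / s ^ (bt q * sg q) * (T / N) ^ bt q * (N ^ (1 + bt q) * m ^ (q - 2 - 1 - bt q)) ≤
      N * T ^ (q - 3) * s ^ (sg q - 1) := by
  have hb := bt_pos q hq
  have hb2 := bt_lt q hq
  have hsg := sg_eq q hq
  have h1 : m ≤ T / s ^ sg q := by
    rw [le_div_iff₀ (by positivity)]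
    linarith
  have h2 : m ^ (q - 2 - 1 - bt q) ≤ (T / s ^ sg q) ^ (q - 2 - 1 - bt q) :=
    Real.rpow_le_rpow hm.le h1 (by linarith)
  have h3 : N ^ (1 + bt q) = N * N ^ bt q := by
    rw [Real.rpow_add hN, Real.rpow_one]
  calc s ^ (q - 1) / s ^ (bt q * sg q) * (T / N) ^ bt q *
        (N ^ (1 + bt q) * m ^ (q - 2 - 1 - bt q))
      ≤ s ^ (q - 1) / s ^ (bt q * sg q) * (T / N) ^ bt q *
        (N ^ (1 + bt q) * (T / s ^ sg q) ^ (q - 2 - 1 - bt q)) := by
        gcongr
    _ = N * T ^ (q - 3) * s ^ (sg q - 1) := by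
        rw [h3, Real.div_rpow hT.le hN.le, Real.div_rpow hT.le (by positivity),
          ← Real.rpow_mul hs.le]
        have e1 : T ^ (q - 3) = T ^ (q - 2 - 1 - bt q) * T ^ bt q := by
          rw [← Real.rpow_add hT]
          congr 1
          ring
        have e2 : s ^ (q - 1) =
            s ^ (sg q - 1) * (s ^ (sg q * (q - 2 - 1 - bt q)) * s ^ (bt q * sg q)) := by
          rw [← Real.rpow_add hs, ← Real.rpow_add hs]
          congr 1
          nlinarith
        rw [e1, e2]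
        have p1 : s ^ (bt q * sg q) ≠ 0 := by positivity
        have p2 : N ^ bt q ≠ 0 := by positivity
        have p3 : s ^ (sg q * (q - 2 - 1 - bt q)) ≠ 0 := by positivity
        field_simp

/-- the integral of the weight -/
theorem wlint (q T N s m : ℝ) (hq : 3 < q) (hT : 0 < T) (hN : 0 < N) (hs : 0 < s) (hm : 0 < m)
    (hmT : s ^ sg q * m ≤ T) :
    ∫⁻ t : ℝ, ENNReal.ofReal (VV q T N s t * (min (N / |t|) m) ^ (q - 2)) ≤
      ENNReal.ofReal (2 * N * cc q * T ^ (q - 3) * s ^ (sg q - 1)) := by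
  have hb := bt_pos q hq
  have hb2 := bt_lt q hq
  have hb3 := bt_one q
  have t1 := tint N m (q - 2) (-bt q) hN hm (by linarith) (by linarith)
  have t2 := tint N m (q - 2) (bt q) hN hm (by linarith) (by linarith)
  set A1 := s ^ (q - 1) * s ^ (bt q * sg q) / (T / N) ^ bt q with hA1
  set A2 := s ^ (q - 1) / s ^ (bt q * sg q) * (T / N) ^ bt q with hA2
  have hA1p : 0 ≤ A1 := by positivity
  have hA2p : 0 ≤ A2 := by positivity
  have hpt : ∀ᵐ t : ℝ, ENNReal.ofReal (VV q T N s t * (min (N / |t|) m) ^ (q - 2)) =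
      ENNReal.ofReal A1 * ENNReal.ofReal ((min (N / |t|) m) ^ (q - 2) * |t| ^ (-bt q)) +
      ENNReal.ofReal A2 * ENNReal.ofReal ((min (N / |t|) m) ^ (q - 2) * |t| ^ (bt q)) := by
    have h0 : ∀ᵐ t : ℝ, t ≠ 0 := Measure.ae_ne volume 0
    filter_upwards [h0] with t ht
    have hta : 0 < |t| := abs_pos.2 ht
    have hmin : 0 ≤ (min (N / |t|) m) ^ (q - 2) := by positivity
    rw [← ENNReal.ofReal_mul hA1p, ← ENNReal.ofReal_mul hA2p, ← ENNReal.ofReal_add (by positivity)
      (by positivity)]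
    congr 1
    unfold VV
    rw [show T * |t| / N = T / N * |t| by ring, Real.mul_rpow (by positivity) hta.le,
      Real.rpow_neg hta.le, hA1, hA2]
    field_simp
  rw [lintegral_congr_ae hpt]
  have hmeas : ∀ b : ℝ, Measurable fun t : ℝ =>
      ENNReal.ofReal ((min (N / |t|) m) ^ (q - 2) * |t| ^ b) := fun b => by fun_prop
  rw [lintegral_add_left ((hmeas _).const_mul _), lintegral_const_mul _ (hmeas _),
    lintegral_const_mul _ (hmeas _)]
  have r1 := real1 q T N s m hq hT hN hs hm hmT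
  have r2 := real2 q T N s m hq hT hN hs hm hmT
  rw [← hA1] at r1
  rw [← hA2] at r2
  set c1 := 1 / (1 + -bt q) + 1 / (q - 2 - 1 - -bt q) with hc1
  set c2 := 1 / (1 + bt q) + 1 / (q - 2 - 1 - bt q) with hc2
  have hc1p : 0 ≤ c1 := by
    have : 0 < 1 + -bt q := by linarith
    have : 0 < q - 2 - 1 - -bt q := by linarith
    positivity
  have hc2p : 0 ≤ c2 := by
    have : 0 < 1 + bt q := by linarith
    have : 0 < q - 2 - 1 - bt q := by linarith
    positivity
  calc (ENNReal.ofReal A1 * ∫⁻ t : ℝ, ENNReal.ofReal ((min (N / |t|) m) ^ (q - 2) * |t| ^ (-bt q))) +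
        (ENNReal.ofReal A2 * ∫⁻ t : ℝ, ENNReal.ofReal ((min (N / |t|) m) ^ (q - 2) * |t| ^ (bt q)))
      ≤ ENNReal.ofReal A1 * ENNReal.ofReal (2 * (N ^ (1 + -bt q) * m ^ (q - 2 - 1 - -bt q) * c1)) +
        ENNReal.ofReal A2 * ENNReal.ofReal (2 * (N ^ (1 + bt q) * m ^ (q - 2 - 1 - bt q) * c2)) := by
        gcongr
    _ = ENNReal.ofReal (2 * c1 * (A1 * (N ^ (1 + -bt q) * m ^ (q - 2 - 1 - -bt q))) +
          2 * c2 * (A2 * (N ^ (1 + bt q) * m ^ (q - 2 - 1 - bt q)))) := by
        rw [← ENNReal.ofReal_mul hA1p, ← ENNReal.ofReal_mul hA2p,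
          ← ENNReal.ofReal_add (by positivity) (by positivity)]
        congr 1
        ring
    _ ≤ ENNReal.ofReal (2 * c1 * (N * T ^ (q - 3) * s ^ (sg q - 1)) +
          2 * c2 * (N * T ^ (q - 3) * s ^ (sg q - 1))) := by
        refine ENNReal.ofReal_le_ofReal ?_
        gcongr
    _ = ENNReal.ofReal (2 * N * cc q * T ^ (q - 3) * s ^ (sg q - 1)) := by
        congr 1
        unfold cc
        rw [← hc1, ← hc2]
        ring

theorem ae_ne : ∀ᵐ ξ : E 3, ξ 2 ≠ 0 := by
  have h : volume (((LinearMap.ker (EuclideanSpace.proj (2 : Fin 3) : E 3 →L[ℝ] ℝ).toLinearMap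
      : Submodule ℝ (E 3))) : Set (E 3)) = 0 := by
    refine Measure.addHaar_submodule _ _ ?_
    intro htop
    have h1 : (EuclideanSpace.single (2 : Fin 3) (1 : ℝ) : E 3) ∈
        (⊤ : Submodule ℝ (E 3)) := Submodule.mem_top
    rw [← htop] at h1
    simp at h1
  rw [ae_iff]
  refine measure_mono_null ?_ h
  intro ξ hξ
  simpa using hξ

/-- **Main inequality for nonnegative functions.** -/
theorem main_nonneg (q : ℝ) (hq : 3 < q) (N : ℕ) (hN0 : 0 < N) (f : E 2 → ℝ) (hf : Measurable f)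
    (h0 : ∀ x, 0 ≤ f x) (hi : Integrable f)
    (hN : ∀ s : ℝ, 0 < s → ∀ x v : E 2, IsUnion N {r : ℝ | s < f (x + r • v)})
    (T : ℝ) (hT : 0 < T) (hfT : ∫⁻ x, ENNReal.ofReal (f x ^ sg q) ≤ ENNReal.ofReal T) :
    ∫⁻ ξ, ‖Ex (fun x => (f x : ℂ)) ξ‖ₑ ^ q ≤
      ENNReal.ofReal ((2 * (q - 1) / (bt q * sg q)) ^ (q - 1) * (2 * cc q / sg q) * N * T ^ (q - 2)) := by
  have hb := bt_pos q hq
  have hsg := sg_pos q hq
  have hNr : (0 : ℝ) < N := by exact_mod_cast hN0
  have hq0 : 0 < q := by linarith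
  have hcc : 0 ≤ cc q := by
    have hb2 := bt_lt q hq
    have hb3 := bt_one q
    unfold cc
    have : 0 < 1 + -bt q := by linarith
    have : 0 < q - 2 - 1 - -bt q := by linarith
    have : 0 < q - 2 - 1 - bt q := by linarith
    positivity
  -- measures of the level sets
  have hmk : ∀ s : ℝ, 0 < s → ENNReal.ofReal (s ^ sg q) * volume {x | s < f x} ≤ ENNReal.ofReal T := by
    intro s hs
    refine le_trans ?_ hfT
    have h1 : {x | s < f x} ⊆ {x | ENNReal.ofReal (s ^ sg q) ≤ ENNReal.ofReal (f x ^ sg q)} := by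
      intro x hx
      exact ENNReal.ofReal_le_ofReal (Real.rpow_le_rpow hs.le (le_of_lt hx) hsg.le)
    refine (mul_le_mul_right (measure_mono h1) _).trans ?_
    exact mul_meas_ge_le_lintegral (by fun_prop) _
  have hfin : ∀ s : ℝ, 0 < s → volume {x | s < f x} ≠ ∞ := by
    intro s hs h
    have h1 := hmk s hs
    rw [h, ENNReal.mul_top (by
      have : 0 < s ^ sg q := by positivity
      simpa using this)] at h1
    exact absurd (lt_of_le_of_lt h1 ENNReal.ofReal_lt_top) (lt_irrefl _)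
  set m : ℝ → ℝ := fun s => (volume {x | s < f x}).toReal with hm
  have hmof : ∀ s : ℝ, 0 < s → ENNReal.ofReal (m s) = volume {x | s < f x} := fun s hs =>
    ENNReal.ofReal_toReal (hfin s hs)
  have hmT : ∀ s : ℝ, 0 < s → s ^ sg q * m s ≤ T := by
    intro s hs
    have h1 := hmk s hs
    rw [← hmof s hs, ← ENNReal.ofReal_mul (by positivity)] at h1
    exact (ENNReal.ofReal_le_ofReal_iff hT.le).1 h1
  -- the pointwise bound
  have hpw : ∀ s : ℝ, 0 < s → ∀ ξ : E 3, ξ 2 ≠ 0 →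
      ‖Ex (lev f s) ξ‖ₑ ≤ ENNReal.ofReal (min (N / |ξ 2|) (m s)) := by
    intro s hs ξ hξ
    rw [← ofReal_norm]
    refine ENNReal.ofReal_le_ofReal (le_min ?_ ?_)
    · exact set_bound N {x | s < f x} (hN s hs) ξ hξ
    · have h1 : ‖Ex (lev f s) ξ‖ₑ ≤ ENNReal.ofReal (m s) := by
        rw [hmof s hs, ← lev_lint f hf s]
        unfold Ex
        refine (enorm_integral_le_lintegral_enorm _).trans (le_of_eq ?_)
        refine lintegral_congr fun x => ?_
        rw [enorm_mul, ← ofReal_norm (ee _), ee_norm, ENNReal.ofReal_one, one_mul]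
      rw [← ofReal_norm] at h1
      exact (ENNReal.ofReal_le_ofReal_iff ENNReal.toReal_nonneg).1 h1
  -- one level
  have hone : ∀ s : ℝ, 0 < s → ∫⁻ ξ : E 3, ENNReal.ofReal (VV q T N s (ξ 2)) * ‖Ex (lev f s) ξ‖ₑ ^ q ≤
      ENNReal.ofReal (2 * N * cc q * T ^ (q - 3)) *
        (volume {x | s < f x} * ENNReal.ofReal (s ^ (sg q - 1))) := by
    intro s hs
    have h1 : ∫⁻ ξ : E 3, ENNReal.ofReal (VV q T N s (ξ 2)) * ‖Ex (lev f s) ξ‖ₑ ^ q ≤
        ∫⁻ ξ : E 3, (fun t : ℝ => ENNReal.ofReal (VV q T N s t * (min (N / |t|) (m s)) ^ (q - 2))) (ξ 2) *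
          ‖Ex (lev f s) ξ‖ₑ ^ 2 := by
      refine lintegral_mono_ae ?_
      filter_upwards [ae_ne] with ξ hξ
      have hmin : 0 ≤ min (N / |ξ 2|) (m s) := le_min (by positivity) ENNReal.toReal_nonneg
      rw [ENNReal.ofReal_mul (VV_nonneg q T N s _ hT hNr hs), mul_assoc]
      gcongr
      have e : ‖Ex (lev f s) ξ‖ₑ ^ q = ‖Ex (lev f s) ξ‖ₑ ^ (q - 2) * ‖Ex (lev f s) ξ‖ₑ ^ 2 := by
        rw [← ENNReal.rpow_natCast, ← ENNReal.rpow_add_of_nonneg _ _ (by linarith) (by norm_num)]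
        congr 1
        push_cast
        ring
      rw [e, ← ENNReal.ofReal_rpow_of_nonneg hmin (by linarith)]
      gcongr
      · linarith
      · exact hpw s hs ξ hξ
    refine h1.trans ?_
    refine (l2w (fun t : ℝ => ENNReal.ofReal (VV q T N s t * (min (N / |t|) (m s)) ^ (q - 2)))
      (by unfold VV; fun_prop) _ (lev_integrable f hf s (hfin s hs))).trans ?_
    rw [lev_lint2 f hf]
    rcases eq_or_lt_of_le (ENNReal.toReal_nonneg (a := volume {x | s < f x})) with h | h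
    · have : volume {x | s < f x} = 0 := by
        rw [← hmof s hs]
        simp only [hm]
        rw [← h, ENNReal.ofReal_zero]
      rw [this]
      simp
    · have h2 := wlint q T N s (m s) hq hT hNr hs h (hmT s hs)
      calc (∫⁻ t : ℝ, ENNReal.ofReal (VV q T N s t * (min (N / |t|) (m s)) ^ (q - 2))) *
            volume {x | s < f x}
          ≤ ENNReal.ofReal (2 * N * cc q * T ^ (q - 3) * s ^ (sg q - 1)) * volume {x | s < f x} := by
            gcongr
        _ = _ := by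
            rw [ENNReal.ofReal_mul (by positivity)]
            ring
  have hjm : Measurable fun p : ℝ × E 3 => ENNReal.ofReal (VV q T N p.1 (p.2 2)) *
      ‖Ex (lev f p.1) p.2‖ₑ ^ q := by
    refine Measurable.mul ?_ ((Ex_lev_joint f hf).enorm.pow_const q)
    unfold VV
    fun_prop
  calc ∫⁻ ξ, ‖Ex (fun x => (f x : ℂ)) ξ‖ₑ ^ q
      ≤ ∫⁻ ξ : E 3, ENNReal.ofReal ((2 * (q - 1) / (bt q * sg q)) ^ (q - 1)) *
        ∫⁻ s in Ioi (0 : ℝ), ENNReal.ofReal (VV q T N s (ξ 2)) * ‖Ex (lev f s) ξ‖ₑ ^ q := by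
        refine lintegral_mono_ae ?_
        filter_upwards [ae_ne] with ξ hξ
        have h1 := layer f hf h0 hi ξ
        have hξa : 0 < |ξ 2| := abs_pos.2 hξ
        have h2 := hold q (bt q * sg q) ((T * |ξ 2| / N) ^ bt q) (by linarith) (by positivity)
          (by positivity) (fun s => ‖Ex (lev f s) ξ‖ₑ)
          ((Ex_lev_joint f hf).comp (measurable_id.prodMk measurable_const)).enorm
        exact (ENNReal.rpow_le_rpow h1 hq0.le).trans h2
    _ = ENNReal.ofReal ((2 * (q - 1) / (bt q * sg q)) ^ (q - 1)) * ∫⁻ ξ : E 3,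
        ∫⁻ s in Ioi (0 : ℝ), ENNReal.ofReal (VV q T N s (ξ 2)) * ‖Ex (lev f s) ξ‖ₑ ^ q := by
        rw [lintegral_const_mul' _ _ ENNReal.ofReal_ne_top]
    _ = ENNReal.ofReal ((2 * (q - 1) / (bt q * sg q)) ^ (q - 1)) * ∫⁻ s in Ioi (0 : ℝ),
        ∫⁻ ξ : E 3, ENNReal.ofReal (VV q T N s (ξ 2)) * ‖Ex (lev f s) ξ‖ₑ ^ q := by
        rw [lintegral_lintegral_swap]
        exact (hjm.comp measurable_swap).aemeasurable
    _ ≤ ENNReal.ofReal ((2 * (q - 1) / (bt q * sg q)) ^ (q - 1)) * ∫⁻ s in Ioi (0 : ℝ),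
        ENNReal.ofReal (2 * N * cc q * T ^ (q - 3)) *
        (volume {x | s < f x} * ENNReal.ofReal (s ^ (sg q - 1))) := by
        gcongr 1
        exact setLIntegral_mono' measurableSet_Ioi fun s hs => hone s hs
    _ ≤ ENNReal.ofReal ((2 * (q - 1) / (bt q * sg q)) ^ (q - 1)) *
        (ENNReal.ofReal (2 * N * cc q * T ^ (q - 3)) * ENNReal.ofReal (T / sg q)) := by
        gcongr 1
        rw [lintegral_const_mul' _ _ ENNReal.ofReal_ne_top]
        gcongr 1
        have h3 := lintegral_rpow_eq_lintegral_meas_lt_mul volume (Eventually.of_forall h0)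
          hf.aemeasurable hsg
        rw [h3] at hfT
        have h4 : ENNReal.ofReal (sg q) ≠ 0 := by simpa using hsg
        rw [ENNReal.ofReal_div_of_pos hsg, ENNReal.le_div_iff_mul_le (Or.inl h4) (Or.inl ENNReal.ofReal_ne_top),
          mul_comm]
        exact hfT
    _ = _ := by
        rw [← ENNReal.ofReal_mul (by positivity), ← ENNReal.ofReal_mul (by
          have : 0 < q - 1 := by linarith
          positivity)]
        congr 1
        have e : T ^ (q - 2) = T ^ (q - 3) * T := by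
          rw [show q - 2 = (q - 3) + 1 by ring, Real.rpow_add_one hT.ne']
        rw [e]
        ring

end Run7.h617.Tame
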