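import Mathlib
import Pool.Agent.Run7.h617.Tame.Five
set_option autoImplicit false

/-! Complex functions, norms and normalisation. -/

namespace Run7.h617.Tame

open MeasureTheory Set Filter Topology Complex
open Pool.Agent.R412.RT (E ee ee_norm ee_meas Ex Ex_meas Phi_cast Phi_last)
open scoped ENNReal NNReal RealInnerProductSpace ComplexConjugate

/-- the constant for the `q`-th power -/
noncomputable def K1 (q : ℝ) : ℝ := (2 * (q - 1) / (bt q * sg q)) ^ (q - 1) * (2 * cc q / sg q)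

theorem K1_nonneg (q : ℝ) (hq : 3 < q) : 0 ≤ K1 q := by
  have hb := bt_pos q hq
  have hsg := sg_pos q hq
  have hcc : 0 ≤ cc q := by
    have hb2 := bt_lt q hq
    have hb3 := bt_one q
    unfold cc
    have : 0 < 1 + -bt q := by linarith
    have : 0 < q - 2 - 1 - -bt q := by linarith
    have : 0 < q - 2 - 1 - bt q := by linarith
    positivity
  have : 0 < q - 1 := by linarith
  unfold K1
  positivity

/-- norm form for nonnegative functions -/
theorem norm_nonneg' (q : ℝ) (hq : 3 < q) (N : ℕ) (hN0 : 0 < N) (f : E 2 → ℝ) (hf : Measurable f)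
    (h0 : ∀ x, 0 ≤ f x) (hi : Integrable f)
    (hN : ∀ s : ℝ, 0 < s → ∀ x v : E 2, IsUnion N {r : ℝ | s < f (x + r • v)})
    (A : ℝ≥0∞) (hA : ∫⁻ x, ENNReal.ofReal (f x ^ sg q) ≤ A) (hAt : A ≠ ∞) :
    ∫⁻ ξ, ‖Ex (fun x => (f x : ℂ)) ξ‖ₑ ^ q ≤ ENNReal.ofReal (K1 q) * N * A ^ (q - 2) := by
  have hsg := sg_pos q hq
  have hq0 : 0 < q := by linarith
  rcases eq_or_ne A 0 with h | h
  · have h1 : ∫⁻ x, ENNReal.ofReal (f x ^ sg q) = 0 := le_antisymm (hA.trans h.le) zero_le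
    rw [lintegral_eq_zero_iff (by fun_prop)] at h1
    have h2 : (fun x => (f x : ℂ)) =ᵐ[volume] fun _ => 0 := by
      filter_upwards [h1] with x hx
      simp only [Pi.zero_apply, ENNReal.ofReal_eq_zero] at hx
      have h3 : f x ^ sg q = 0 := le_antisymm hx (Real.rpow_nonneg (h0 x) _)
      rw [Real.rpow_eq_zero (h0 x) hsg.ne'] at h3
      rw [h3, ofReal_zero]
    have h3 : ∀ ξ, Ex (fun x => (f x : ℂ)) ξ = 0 := by
      intro ξ
      unfold Ex
      rw [integral_congr_ae (g := fun _ => (0 : ℂ)), integral_zero]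
      filter_upwards [h2] with x hx
      rw [hx, mul_zero]
    simp_rw [h3]
    simp [ENNReal.zero_rpow_of_pos hq0]
  · have hT : 0 < A.toReal := ENNReal.toReal_pos h hAt
    have h1 := main_nonneg q hq N hN0 f hf h0 hi hN A.toReal hT (by
      rw [ENNReal.ofReal_toReal hAt]; exact hA)
    refine h1.trans (le_of_eq ?_)
    have hK := K1_nonneg q hq
    rw [show (2 * (q - 1) / (bt q * sg q)) ^ (q - 1) * (2 * cc q / sg q) = K1 q from rfl,
      ENNReal.ofReal_mul (by positivity), ENNReal.ofReal_mul hK, ENNReal.ofReal_natCast,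
      ← ENNReal.ofReal_rpow_of_pos hT, ENNReal.ofReal_toReal hAt]

/-- the four parts -/
noncomputable def part (c : ℂ) (g : E 2 → ℂ) (x : E 2) : ℝ := max (c * g x).re 0

theorem part_le (c : ℂ) (hc : ‖c‖ = 1) (g : E 2 → ℂ) (x : E 2) : part c g x ≤ ‖g x‖ := by
  unfold part
  refine max_le ?_ (norm_nonneg _)
  refine (Complex.re_le_norm _).trans ?_
  rw [norm_mul, hc, one_mul]

theorem part_nonneg (c : ℂ) (g : E 2 → ℂ) (x : E 2) : 0 ≤ part c g x := le_max_right _ _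

theorem part_meas (c : ℂ) (g : E 2 → ℂ) (hg : Measurable g) : Measurable (part c g) := by
  unfold part
  exact ((measurable_re.comp (hg.const_mul c))).max measurable_const

theorem part_int (c : ℂ) (hc : ‖c‖ = 1) (g : E 2 → ℂ) (hg : Measurable g) (hi : Integrable g) :
    Integrable (part c g) := by
  refine hi.norm.mono (part_meas c g hg).aestronglyMeasurable (Eventually.of_forall fun x => ?_)
  rw [Real.norm_of_nonneg (part_nonneg _ _ _), norm_norm]
  exact part_le c hc g x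

theorem part_sum (g : E 2 → ℂ) (x : E 2) : g x = (part 1 g x : ℂ) - (part (-1) g x : ℂ) +
    I * ((part (-I) g x : ℂ) - (part I g x : ℂ)) := by
  have h : ∀ a : ℝ, (max a 0 : ℝ) - max (-a) 0 = a := by
    intro a
    rcases le_total 0 a with h | h
    · rw [max_eq_left h, max_eq_right (by linarith)]
      ring
    · rw [max_eq_right h, max_eq_left (by linarith)]
      ring
  have h1 := h (g x).re
  have h2 := h (g x).im
  unfold part
  apply Complex.ext
  · simp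
  · simp

theorem Ex_parts (g : E 2 → ℂ) (hg : Measurable g) (hi : Integrable g) (ξ : E 3) :
    ‖Ex g ξ‖ₑ ≤ ‖Ex (fun x => (part 1 g x : ℂ)) ξ‖ₑ + ‖Ex (fun x => (part (-1) g x : ℂ)) ξ‖ₑ +
      (‖Ex (fun x => (part (-I) g x : ℂ)) ξ‖ₑ + ‖Ex (fun x => (part I g x : ℂ)) ξ‖ₑ) := by
  have hint : ∀ c : ℂ, ‖c‖ = 1 → Integrable fun x => ee ⟪Pool.Agent.R412.RT.Phi x, ξ⟫ * (part c g x : ℂ) := by
    intro c hc
    refine (part_int c hc g hg hi).ofReal.bdd_mul (c := 1) ?_ (Eventually.of_forall fun x => (ee_norm _).le)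
    exact (ee_meas.comp (Phi_cont.measurable.inner measurable_const)).aestronglyMeasurable
  have e : Ex g ξ = (Ex (fun x => (part 1 g x : ℂ)) ξ - Ex (fun x => (part (-1) g x : ℂ)) ξ) +
      I * (Ex (fun x => (part (-I) g x : ℂ)) ξ - Ex (fun x => (part I g x : ℂ)) ξ) := by
    have hA : Integrable fun x => ee ⟪Pool.Agent.R412.RT.Phi x, ξ⟫ * (part 1 g x : ℂ) -
        ee ⟪Pool.Agent.R412.RT.Phi x, ξ⟫ * (part (-1) g x : ℂ) :=
      (hint 1 (by simp)).sub (hint (-1) (by simp))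
    have hB : Integrable fun x => I * (ee ⟪Pool.Agent.R412.RT.Phi x, ξ⟫ * (part (-I) g x : ℂ) -
        ee ⟪Pool.Agent.R412.RT.Phi x, ξ⟫ * (part I g x : ℂ)) :=
      ((hint (-I) (by simp)).sub (hint I (by simp))).const_mul I
    unfold Ex
    rw [← integral_sub (hint 1 (by simp)) (hint (-1) (by simp)),
      ← integral_sub (hint (-I) (by simp)) (hint I (by simp)), ← integral_const_mul,
      ← integral_add hA hB]
    refine integral_congr_ae (Eventually.of_forall fun x => ?_)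
    simp only
    conv_lhs => rw [part_sum g x]
    ring
  rw [e]
  refine (enorm_add_le _ _).trans ?_
  rw [enorm_mul]
  have hI : ‖I‖ₑ = 1 := by
    rw [← ofReal_norm, norm_I, ENNReal.ofReal_one]
  rw [hI, one_mul]
  exact add_le_add (enorm_sub_le ..) (enorm_sub_le ..)

/-- the inequality for complex functions -/
theorem main_complex (q : ℝ) (hq : 3 < q) (N : ℕ) (hN0 : 0 < N) (g : E 2 → ℂ) (hg : Measurable g)
    (hi : Integrable g)
    (hN : ∀ s : ℝ, 0 < s → ∀ c ∈ ({1, -1, I, -I} : Set ℂ), ∀ x v : E 2,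
      IsUnion N {r : ℝ | s < (c * g (x + r • v)).re})
    (hAt : ∫⁻ x, ‖g x‖ₑ ^ sg q ≠ ∞) :
    ∫⁻ ξ, ‖Ex g ξ‖ₑ ^ q ≤
      ENNReal.ofReal (4 ^ q * K1 q) * N * (∫⁻ x, ‖g x‖ₑ ^ sg q) ^ (q - 2) := by
  have hq0 : 0 < q := by linarith
  have hsg := sg_pos q hq
  set A := ∫⁻ x, ‖g x‖ₑ ^ sg q with hA
  have hp : ∀ c ∈ ({1, -1, I, -I} : Set ℂ), ∫⁻ ξ, ‖Ex (fun x => (part c g x : ℂ)) ξ‖ₑ ^ q ≤
      ENNReal.ofReal (K1 q) * N * A ^ (q - 2) := by
    intro c hc
    have hcn : ‖c‖ = 1 := by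
      rcases hc with rfl | rfl | rfl | rfl <;> simp
    refine norm_nonneg' q hq N hN0 (part c g) (part_meas c g hg) (part_nonneg c g)
      (part_int c hcn g hg hi) ?_ A ?_ hAt
    · intro s hs x v
      have : {r : ℝ | s < part c g (x + r • v)} = {r : ℝ | s < (c * g (x + r • v)).re} := by
        ext r
        simp only [mem_ofPred_eq, part, lt_max_iff]
        constructor
        · rintro (h | h)
          · exact h
          · exact absurd h (not_lt.2 hs.le)
        · exact fun h => Or.inl h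
      rw [this]
      exact hN s hs c hc x v
    · refine lintegral_mono fun x => ?_
      rw [← ENNReal.ofReal_rpow_of_nonneg (part_nonneg c g x) hsg.le, ← ofReal_norm]
      exact ENNReal.rpow_le_rpow (ENNReal.ofReal_le_ofReal (part_le c hcn g x)) hsg.le
  have h4 : ∀ a b c d : ℝ≥0∞, (a + b + (c + d)) ^ q ≤
      ENNReal.ofReal (4 ^ (q - 1)) * (a ^ q + b ^ q + (c ^ q + d ^ q)) := by
    intro a b c d
    have h := ENNReal.inner_le_Lp_mul_Lq (Finset.univ : Finset (Fin 4)) (fun _ => 1) ![a, b, c, d]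
      (Real.HolderConjugate.conjExponent (show 1 < q by linarith)).symm
    have h2 := ENNReal.rpow_le_rpow h hq0.le
    rw [ENNReal.mul_rpow_of_nonneg _ _ hq0.le, ← ENNReal.rpow_mul, ← ENNReal.rpow_mul,
      one_div_mul_cancel hq0.ne', ENNReal.rpow_one] at h2
    simp only [Fin.sum_univ_four, one_mul, ENNReal.one_rpow] at h2
    have e1 : ((1 : ℝ≥0∞) + 1 + 1 + 1) ^ (1 / Real.conjExponent q * q) = ENNReal.ofReal (4 ^ (q - 1)) := by
      have : (1 : ℝ≥0∞) + 1 + 1 + 1 = ENNReal.ofReal 4 := by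
        rw [ENNReal.ofReal_ofNat]
        norm_num
      rw [this, ENNReal.ofReal_rpow_of_pos (by norm_num)]
      congr 2
      unfold Real.conjExponent
      field_simp
    rw [e1] at h2
    refine le_trans (le_of_eq ?_) (h2.trans (le_of_eq ?_))
    · simp [add_assoc]
    · simp [add_assoc]
  have hmeas : ∀ c : ℂ, Measurable fun ξ => ‖Ex (fun x => (part c g x : ℂ)) ξ‖ₑ ^ q := fun c =>
    ((Ex_meas _ (part_meas c g hg).complex_ofReal.aestronglyMeasurable).enorm.pow_const q)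
  calc ∫⁻ ξ, ‖Ex g ξ‖ₑ ^ q ≤ ∫⁻ ξ, ENNReal.ofReal (4 ^ (q - 1)) *
        (‖Ex (fun x => (part 1 g x : ℂ)) ξ‖ₑ ^ q + ‖Ex (fun x => (part (-1) g x : ℂ)) ξ‖ₑ ^ q +
        (‖Ex (fun x => (part (-I) g x : ℂ)) ξ‖ₑ ^ q + ‖Ex (fun x => (part I g x : ℂ)) ξ‖ₑ ^ q)) := by
        refine lintegral_mono fun ξ => ?_
        exact (ENNReal.rpow_le_rpow (Ex_parts g hg hi ξ) hq0.le).trans (h4 _ _ _ _)
    _ = ENNReal.ofReal (4 ^ (q - 1)) *
        ((∫⁻ ξ, ‖Ex (fun x => (part 1 g x : ℂ)) ξ‖ₑ ^ q) + (∫⁻ ξ, ‖Ex (fun x => (part (-1) g x : ℂ)) ξ‖ₑ ^ q) +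
        ((∫⁻ ξ, ‖Ex (fun x => (part (-I) g x : ℂ)) ξ‖ₑ ^ q) +
          (∫⁻ ξ, ‖Ex (fun x => (part I g x : ℂ)) ξ‖ₑ ^ q))) := by
        have hAB : Measurable fun ξ => ‖Ex (fun x => (part 1 g x : ℂ)) ξ‖ₑ ^ q +
            ‖Ex (fun x => (part (-1) g x : ℂ)) ξ‖ₑ ^ q := (hmeas 1).add (hmeas (-1))
        rw [lintegral_const_mul' _ _ ENNReal.ofReal_ne_top, lintegral_add_left hAB,
          lintegral_add_left (hmeas 1), lintegral_add_left (hmeas (-I))]
    _ ≤ ENNReal.ofReal (4 ^ (q - 1)) *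
        ((ENNReal.ofReal (K1 q) * N * A ^ (q - 2)) + (ENNReal.ofReal (K1 q) * N * A ^ (q - 2)) +
        ((ENNReal.ofReal (K1 q) * N * A ^ (q - 2)) + (ENNReal.ofReal (K1 q) * N * A ^ (q - 2)))) := by
        gcongr
        · exact hp 1 (by simp)
        · exact hp (-1) (by simp)
        · exact hp (-I) (by simp)
        · exact hp I (by simp)
    _ = _ := by
        rw [ENNReal.ofReal_mul (by positivity), show (4 : ℝ) ^ q = 4 ^ (q - 1) * 4 by
          rw [← Real.rpow_add_one (by norm_num)]; congr 1; ring, ENNReal.ofReal_mul (by positivity),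
          ENNReal.ofReal_ofNat]
        ring

/-- the paraboloid `x ↦ (x_1, x_2, x_1^2 + x_2^2)` -/
noncomputable def Ph (x : E 2) : E 3 := !₂[x 0, x 1, x 0 ^ 2 + x 1 ^ 2]

/-- the Fourier extension operator of the paraboloid over `U` -/
noncomputable def ext (U : Set (E 2)) (f : E 2 → ℂ) (ξ : E 3) : ℂ :=
  ∫ x in U, Complex.exp (-((⟪Ph x, ξ⟫ : ℝ) : ℂ) * I) * f x

theorem Ph_eq (x : E 2) : Ph x = Pool.Agent.R412.RT.Phi x := by
  ext i
  have h0 : Pool.Agent.R412.RT.Phi x (0 : Fin 3) = x 0 := Pool.Agent.R412.RT.Phi_cast x 0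
  have h1 : Pool.Agent.R412.RT.Phi x (1 : Fin 3) = x 1 := Pool.Agent.R412.RT.Phi_cast x 1
  have h2 : Pool.Agent.R412.RT.Phi x (2 : Fin 3) = ∑ i, x i ^ 2 := Pool.Agent.R412.RT.Phi_last x
  fin_cases i
  · exact h0.symm
  · exact h1.symm
  · refine Eq.trans ?_ h2.symm
    rw [Fin.sum_univ_two]
    rfl

theorem ext_eq (U : Set (E 2)) (hU : MeasurableSet U) (f : E 2 → ℂ) (ξ : E 3) :
    ext U f ξ = Ex (U.indicator f) ((-(2 * Real.pi)⁻¹) • ξ) := by
  unfold ext Ex
  rw [← integral_indicator hU]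
  congr 1
  ext x
  by_cases hx : x ∈ U
  · rw [indicator_of_mem hx, indicator_of_mem hx, inner_smul_right, Ph_eq]
    congr 1
    unfold ee
    congr 1
    have h1 : (2 * Real.pi * (-(2 * Real.pi)⁻¹ * ⟪Pool.Agent.R412.RT.Phi x, ξ⟫) : ℝ) =
        -⟪Pool.Agent.R412.RT.Phi x, ξ⟫ := by
      have := Real.pi_pos
      field_simp
    have h3 := congrArg (fun r : ℝ => (r : ℂ)) h1
    push_cast at h3 ⊢
    rw [← h3]
  · rw [indicator_of_notMem hx, indicator_of_notMem hx, mul_zero]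

theorem ext_lint (q : ℝ) (U : Set (E 2)) (hU : MeasurableSet U) (f : E 2 → ℂ) :
    ∫⁻ ξ, ‖ext U f ξ‖ₑ ^ q =
      ENNReal.ofReal ((2 * Real.pi) ^ 3) * ∫⁻ ξ, ‖Ex (U.indicator f) ξ‖ₑ ^ q := by
  have hpi := Real.pi_pos
  have h0 : -(2 * Real.pi)⁻¹ ≠ 0 := by
    have : (2 * Real.pi)⁻¹ ≠ 0 := by positivity
    simpa using this
  have hme : MeasurableEmbedding fun ξ : E 3 => (-(2 * Real.pi)⁻¹) • ξ :=
    (Homeomorph.smulOfNeZero _ h0).toMeasurableEquiv.measurableEmbedding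
  have h5 := Measure.map_addHaar_smul (volume : Measure (E 3)) h0
  have h6 : ∫⁻ ξ, ‖Ex (U.indicator f) ξ‖ₑ ^ q
      ∂(Measure.map ((-(2 * Real.pi)⁻¹) • ·) (volume : Measure (E 3))) =
      ∫⁻ ξ, ‖ext U f ξ‖ₑ ^ q := by
    rw [hme.lintegral_map]
    refine lintegral_congr fun ξ => ?_
    rw [ext_eq U hU]
  rw [← h6, h5, lintegral_smul_measure, smul_eq_mul]
  congr 2
  rw [finrank_euclideanSpace, Fintype.card_fin, ← inv_pow, abs_pow, inv_neg, inv_inv, abs_neg,
    abs_of_pos (by positivity)]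

theorem ext_mod (U : Set (E 2)) (f : E 2 → ℂ) (η ξ : E 3) :
    ext U f ξ = ext U (fun x => cexp ((⟪Ph x, η⟫ : ℝ) * I) * f x) (ξ + η) := by
  unfold ext
  refine integral_congr_ae (Eventually.of_forall fun x => ?_)
  simp only
  rw [← mul_assoc, ← Complex.exp_add, inner_add_right]
  congr 2
  push_cast
  ring

end Run7.h617.Tame
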